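import Pool.Agent.R302.HJ.Tree

set_option autoImplicit false

noncomputable section

namespace Pool.Agent.R302.HJ

open Filter Topology

theorem BB_zero (w : ℕ → ℝ) : BB w 0 0 := by
  intro l _
  have : ∀ l : List Jmp, Q w l 0 = 0 := by
    intro l
    induction l with
    | nil => simp [Q]
    | cons j l ih =>
      rw [Q_cons, ih]
      simp [S]
  rw [this]

theorem res_res {P P' : ℕ → Prop} (h : ∀ i, P i → P' i) (y : Fn) :
    res P (res P' y) = res P y := by
  funext i t
  simp only [res]
  by_cases hP : P i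
  · simp [hP, h i hP]
  · simp [hP]

theorem BB.res_mono {w : ℕ → ℝ} {y : Fn} {A : ℝ} {P P' : ℕ → Prop} (h : ∀ i, P i → P' i)
    (hB : BB w (HJ.res P' y) A) : BB w (HJ.res P y) A := by
  rw [← res_res h]
  exact hB.res P

theorem res_add (P : ℕ → Prop) (x y : Fn) : res P (x + y) = res P x + res P y := by
  funext i t
  simp only [res, Pi.add_apply]
  by_cases hP : P i <;> simp [hP]

theorem res_sub (P : ℕ → Prop) (x y : Fn) : res P (x - y) = res P x - res P y := by
  funext i t
  simp only [res, Pi.sub_apply]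
  by_cases hP : P i <;> simp [hP]

/-- the mass in windows of copies far away is small along the tree -/
theorem window {r : ℕ} {C : ℝ} {g : List ℕ → Fn} (hB : BT r C g) {ε : ℝ} (hε : 0 < ε) :
    ∃ I, ∀ J, I ≤ J → AU r (fun l => BB w1 (res (fun i => I ≤ i ∧ i < J) (g l)) ε) := by
  by_contra hcon
  push Not at hcon
  have key : ∀ R : ℕ, ∃ I, AU r (fun l => ¬ BB w1 (res (fun i => i < I) (g l))
      (((R : ℝ) + 1) * ε)) := by
    intro R
    induction R with
    | zero =>
      obtain ⟨J, _, hJ⟩ := hcon 0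
      refine ⟨J, AU_mono r ?_ (AU_not r hJ)⟩
      intro l hl hl'
      apply hl
      have : BB w1 (res (fun i => i < J) (g l)) ε := by simpa using hl'
      exact this.res_mono (fun i hi => hi.2)
    | succ R ih =>
      obtain ⟨I, hI⟩ := ih
      obtain ⟨J, hIJ, hJ⟩ := hcon I
      refine ⟨J, AU_mono r ?_ (AU_and r hI (AU_not r hJ))⟩
      rintro l ⟨h1, h2⟩ h3
      refine not_BB_super (P := fun i => i < J) (fun i hi => lt_of_lt_of_le hi hIJ)
        (fun i hi => hi.2) (fun i hi => ?_) h1 h2 ?_
      · have := hi.1; have := hi.2.1; omega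
      · convert h3 using 1
        push_cast
        ring
  obtain ⟨R, hR⟩ := exists_nat_gt (C / ε)
  obtain ⟨I, hI⟩ := key R
  obtain ⟨l, hl1, hl2⟩ := AU_exists r (AU_and r hI hB)
  apply hl1
  refine (hl2.res _).mono ?_
  rw [div_lt_iff₀ hε] at hR
  nlinarith

/-- the mass in the copies far away is of the order of the square root of the length -/
theorem Apart {A C : ℝ} (hA : 0 < A) : ∀ (r : ℕ) {g : List ℕ → Fn}, LipT r A g → BT r C g →
    (∀ l, ∃ I, ∀ i t, I ≤ i → g l i t = 0) →
    ∃ I, AU r (fun l => BB w1 (res (fun i => I ≤ i) (g l)) (2 * A * r))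
  | 0, g, _, _, hfs => by
    obtain ⟨I, hI⟩ := hfs []
    refine ⟨I, ?_⟩
    show BB w1 (res (fun i => I ≤ i) (g [])) (2 * A * ((0 : ℕ) : ℝ))
    have : res (fun i => I ≤ i) (g []) = 0 := by
      funext i t
      simp only [res]
      by_cases h : I ≤ i
      · simp [h, hI i t h]
      · simp [h]
    rw [this]
    simpa using BB_zero w1
  | (r + 1), g, hL, hB, hfs => by
    have hB' : ∀ᶠ n in (U : Filter ℕ), BT r C (fun l => g (n :: l)) := hB
    obtain ⟨n0, hn1, hn2⟩ := (hL.1.and hB').exists
    obtain ⟨I0, hI0⟩ := window hn2 (ε := A / 6) (by positivity)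
    refine ⟨I0, ?_⟩
    show ∀ᶠ n in (U : Filter ℕ), AU r _
    filter_upwards [hn1, hB', hL.2] with n h1 h2 h3
    obtain ⟨I1, hI1⟩ := Apart hA r h3 h2 (fun l => hfs (n :: l))
    have hJ := hI0 (max I0 I1) (le_max_left _ _)
    refine AU_mono r ?_ (AU_and r hJ (AU_and r h1 hI1))
    rintro l ⟨e1, e2, e3⟩
    have e4 : BB w1 (res (fun i => I0 ≤ i ∧ i < max I0 I1) (g (n :: l))) (2 * A) := by
      have e5 : res (fun i => I0 ≤ i ∧ i < max I0 I1) (g (n :: l))
          = -(res (fun i => I0 ≤ i ∧ i < max I0 I1) (g (n0 :: l) - g (n :: l)))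
            + res (fun i => I0 ≤ i ∧ i < max I0 I1) (g (n0 :: l)) := by
        rw [res_sub]; abel
      rw [e5]
      refine (BB.add w1_nonneg (α := 1 / 2) (by norm_num) ((e2.res _).neg) e1).mono ?_
      linarith
    have e6 : BB w1 (res (fun i => max I0 I1 ≤ i) (g (n :: l))) (2 * A * r) :=
      e3.res_mono (fun i hi => (le_max_right _ _).trans hi)
    refine (BB.split (P := fun i => I0 ≤ i) (fun i => ?_) (fun i hi => ?_) e4 e6).mono ?_
    · constructor
      · intro h
        rcases lt_or_ge i (max I0 I1) with h' | h'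
        · exact Or.inl ⟨h, h'⟩
        · exact Or.inr h'
      · rintro (h | h)
        · exact h.1
        · exact (le_max_left _ _).trans h
    · have := hi.1.2; have := hi.2; omega
    · push_cast
      linarith

end Pool.Agent.R302.HJ
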