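import Pool.Agent.R302.HJ.APart

set_option autoImplicit false

noncomputable section

namespace Pool.Agent.R302.HJ

open Filter Topology

/-- the deterministic step -/
theorem det_step {A : ℝ} (r I T : ℕ) (hT : 1 ≤ T) {α ε κ θ : ℝ}
    (hα : 0 < α) (hκ : 0 ≤ κ) (hθ : 0 ≤ θ)
    (hκε : ((I * 1 : ℕ) : ℝ) ^ 2 * κ ^ 2 ≤ ε) (hθε : ((I * T : ℕ) : ℝ) ^ 2 * θ ^ 2 ≤ ε)
    (hfin : (1 + α) * (2 * ((1 + α) * (4 * A) + (1 + 1 / α) * ε)
      + ((1 + α) * (9 * A * r) + (1 + 1 / α) * (2 * ε))) + (1 + 1 / α) * (20 * ε)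
      ≤ 9 * A * ((r : ℝ) + 1))
    {e D : Fn} (he : BB w1 e (4 * A)) (heI : ∀ i t, I ≤ i → e i t = 0)
    (hDI : ∀ i t, I ≤ i → D i t = 0) (htail : BB w1 (geT T e) ε)
    (hsum : ∀ i < I, |S e (i, 0, T)| ≤ κ) (hD : BB w2 D (9 * A * r))
    (hDs : ∀ i < I, ∀ t < T, |D i t| ≤ θ) : BB w2 (e + D) (9 * A * ((r : ℝ) + 1)) := by
  let corr : Fn := fun i t => if t = 0 then S e (i, 0, T) else 0
  have hS0 : ∀ i, I ≤ i → S e (i, 0, T) = 0 := fun i hi =>
    Finset.sum_eq_zero (fun t _ => heI i t hi)
  have hcorr : BB w1 corr ε := by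
    refine (BB_small I 1 corr ?_ ?_ (θ := κ) ?_).mono hκε
    · intro i t hi
      simp only [corr]
      rw [hS0 i hi]
      simp
    · intro i t ht
      simp only [corr]
      rw [if_neg (by omega)]
    · intro i t
      simp only [corr]
      split_ifs with h
      · by_cases hi : i < I
        · exact hsum i hi
        · rw [hS0 i (by omega), abs_zero]; exact hκ
      · rw [abs_zero]; exact hκ
  have hlt : BB w1 (ltT T D) ε := by
    refine (BB_small I T (ltT T D) ?_ ?_ (θ := θ) ?_).mono hθε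
    · intro i t hi
      simp only [ltT]
      rw [hDI i t hi]
      simp
    · intro i t ht
      simp only [ltT]
      rw [if_neg (by omega)]
    · intro i t
      simp only [ltT]
      split_ifs with h
      · by_cases hi : i < I
        · exact hDs i hi t h
        · rw [hDI i t (by omega), abs_zero]; exact hθ
      · rw [abs_zero]; exact hθ
  have h1 : BB w1 (ltT T e - corr) ((1 + α) * (4 * A) + (1 + 1 / α) * ε) :=
    (he.ltT T).sub w1_nonneg hα hcorr
  have h2 : BB w2 (geT T D) ((1 + α) * (9 * A * r) + (1 + 1 / α) * (2 * ε)) := by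
    have e1 : geT T D = D - ltT T D := by
      have := lt_add_ge T D
      funext i t
      have := congrFun (congrFun this i) t
      simp only [Pi.add_apply, Pi.sub_apply] at this ⊢
      linarith
    rw [e1]
    exact hD.sub w2_nonneg hα hlt.w2_of_w1
  have h3 := BB_comb (T := T) (e := ltT T e - corr) (D := geT T D) (by
      intro i t ht
      simp only [Pi.sub_apply, ltT, corr]
      rw [if_neg (by omega), if_neg (by omega)]
      simp) (by
      intro i t ht
      simp only [geT]
      rw [if_neg (by omega)]) (by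
      intro i
      rw [S_sub, S_ltT]
      have : S corr (i, 0, T) = S e (i, 0, T) := by
        show ∑ t ∈ Finset.Ico 0 T, (if t = 0 then S e (i, 0, T) else 0) = S e (i, 0, T)
        rw [Finset.sum_ite_eq' , if_pos (by simp; omega)]
      rw [this]
      simp) h1 h2
  have h4 : BB w1 (geT T e + ltT T D) (4 * ε) := by
    refine (htail.add w1_nonneg (α := 1) one_pos hlt).mono ?_
    linarith
  have h5 : BB w1 (corr + (geT T e + ltT T D)) (10 * ε) := by
    refine (hcorr.add w1_nonneg (α := 1) one_pos h4).mono ?_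
    linarith
  have h6 := BB.add w2_nonneg hα h3 h5.w2_of_w1
  have e2 : (ltT T e - corr) + geT T D + (corr + (geT T e + ltT T D)) = e + D := by
    have q1 := lt_add_ge T e
    have q2 := lt_add_ge T D
    funext i t
    have q1' := congrFun (congrFun q1 i) t
    have q2' := congrFun (congrFun q2 i) t
    simp only [Pi.add_apply, Pi.sub_apply] at q1' q2' ⊢
    linarith
  rw [e2] at h6
  refine h6.mono ?_
  refine le_trans (le_of_eq ?_) hfin
  ring

theorem Bpart {A C : ℝ} (hA : 0 < A) (I : ℕ) : ∀ r : ℕ, ∃ η : ℝ, 0 < η ∧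
    ∀ g h : List ℕ → Fn, LipT r A g → LipT r A h → BT r C g → BT r C h →
      (∀ l i t, I ≤ i → g l i t = 0) → (∀ l i t, I ≤ i → h l i t = 0) →
      (∀ k ≤ r, ∀ i < I, |pr r g k i - pr r h k i| ≤ η) →
      AU2 r (fun l l' => BB w2 ((g l - WL r g) - (h l' - WL r h)) (9 * A * r)) := by
  intro r
  induction r with
  | zero =>
    refine ⟨1, one_pos, ?_⟩
    intro g h _ _ _ _ _ _ _
    show BB w2 ((g [] - g []) - (h [] - h [])) (9 * A * ((0 : ℕ) : ℝ))
    simpa using BB_zero w2
  | succ r ih =>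
    obtain ⟨η0, hη0, hih⟩ := ih
    set α : ℝ := 1 / (60 * ((r : ℝ) + 1)) with hαdef
    have hr0 : (0 : ℝ) ≤ r := Nat.cast_nonneg r
    have hα : 0 < α := by positivity
    have hα1 : α ≤ 1 := by
      rw [hαdef, div_le_one (by positivity)]
      linarith
    have hαr : α * ((r : ℝ) + 1) = 1 / 60 := by
      rw [hαdef]; field_simp
    set M : ℝ := 1 + 1 / α with hMdef
    have hM : 0 < M := by positivity
    set ε : ℝ := A / (56 * M) with hεdef
    have hε : 0 < ε := by positivity
    have hMε : M * ε = A / 56 := by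
      rw [hεdef]; field_simp
    have hfin : (1 + α) * (2 * ((1 + α) * (4 * A) + M * ε)
      + ((1 + α) * (9 * A * r) + M * (2 * ε))) + M * (20 * ε)
      ≤ 9 * A * ((r : ℝ) + 1) := by
      have e1 : (1 + α) * (2 * ((1 + α) * (4 * A) + M * ε)
        + ((1 + α) * (9 * A * r) + M * (2 * ε))) + M * (20 * ε)
        = (1 + 2 * α + α ^ 2) * (A * (8 + 9 * r)) + (1 + α) * (4 * (M * ε))
          + 20 * (M * ε) := by ring
      rw [e1, hMε]
      have e2 : α ^ 2 ≤ α := by nlinarith
      have e3 : (1 + 2 * α + α ^ 2) * (A * (8 + 9 * r)) ≤ (1 + 3 * α) * (A * (8 + 9 * r)) :=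
        mul_le_mul_of_nonneg_right (by linarith) (by positivity)
      have e4 : 3 * α * (A * (8 + 9 * r)) ≤ A * (27 / 60) := by
        have : 3 * α * (A * (8 + 9 * r)) ≤ 27 * A * (α * ((r : ℝ) + 1)) := by
          nlinarith [mul_pos hα hA]
        rw [hαr] at this
        linarith
      have e5 : (1 + α) * (4 * (A / 56)) ≤ 2 * (4 * (A / 56)) :=
        mul_le_mul_of_nonneg_right (by linarith) (by positivity)
      nlinarith
    set κ : ℝ := Real.sqrt ε / ((I : ℝ) + 1) with hκdef
    have hκ : 0 < κ := by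
      have := Real.sqrt_pos.2 hε
      positivity
    have hκε : ((I * 1 : ℕ) : ℝ) ^ 2 * κ ^ 2 ≤ ε := by
      rw [hκdef, div_pow, Real.sq_sqrt hε.le]
      rw [← mul_div_assoc, div_le_iff₀ (by positivity)]
      push_cast
      nlinarith [Nat.cast_nonneg (α := ℝ) I, hε.le]
    set ε1 : ℝ := min ε ((κ / 2) ^ 2) with hε1def
    have hε1 : 0 < ε1 := lt_min hε (by positivity)
    have hε1s : Real.sqrt ε1 ≤ κ / 2 := by
      rw [Real.sqrt_le_left (by positivity)]
      exact min_le_right _ _
    set ζ : ℝ := min η0 (κ / 4) with hζdef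
    have hζ : 0 < ζ := lt_min hη0 (by positivity)
    refine ⟨ζ / 3, by positivity, ?_⟩
    intro g h hgL hhL hgB hhB hgI hhI hpr
    have hgB' : ∀ᶠ n in (U : Filter ℕ), BT r C (fun l => g (n :: l)) := hgB
    have hhB' : ∀ᶠ n in (U : Filter ℕ), BT r C (fun l => h (n :: l)) := hhB
    have near : ∀ f : List ℕ → Fn, BT (r + 1) C f → ∀ᶠ n in (U : Filter ℕ), ∀ k < r + 1,
        ∀ i < I, |pr r (fun l => f (n :: l)) k i - pr (r + 1) f (k + 1) i| ≤ ζ / 3 := by
      intro f hf
      refine ev_all (fun k _ => ev_all (fun i _ => ?_))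
      have h3 := (Metric.tendsto_nhds.1 (pr_tendsto hf k i)) (ζ / 3) (by positivity)
      filter_upwards [h3] with n hn
      rw [Real.dist_eq] at hn
      exact hn.le
    show ∀ᶠ n in (U : Filter ℕ), ∀ᶠ n' in (U : Filter ℕ), AU2 r _
    filter_upwards [hgB', hgL.2, near g hgB, WL_diff hgL hgB] with n n1 n2 n3 n4
    filter_upwards [hhB', hhL.2, near h hhB, WL_diff hhL hhB] with n' m1 m2 m3 m4
    have hprn : ∀ k ≤ r, ∀ i < I,
        |pr r (fun l => g (n :: l)) k i - pr r (fun l => h (n' :: l)) k i| ≤ ζ := by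
      intro k hk i hi
      have q1 := n3 k (by omega) i hi
      have q2 := m3 k (by omega) i hi
      have q3 := hpr (k + 1) (by omega) i hi
      rw [abs_le] at q1 q2 q3 ⊢
      constructor <;> linarith [q1.1, q1.2, q2.1, q2.2, q3.1, q3.2]
    have hmain := hih (fun l => g (n :: l)) (fun l => h (n' :: l)) n2 m2 n1 m1
      (fun l => hgI _) (fun l => hhI _)
      (fun k hk i hi => (hprn k hk i hi).trans (min_le_left _ _))
    set u : Fn := WL r (fun l => g (n :: l)) - WL (r + 1) g with hu
    set v : Fn := WL r (fun l => h (n' :: l)) - WL (r + 1) h with hv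
    have hgW : BB w1 (WL r (fun l => g (n :: l))) C := WL_BB r n1
    have hhW : BB w1 (WL r (fun l => h (n' :: l))) C := WL_BB r m1
    have hgW' : BB w1 (WL (r + 1) g) C := WL_BB (r + 1) hgB
    have hhW' : BB w1 (WL (r + 1) h) C := WL_BB (r + 1) hhB
    have he : BB w1 (u - v) (4 * A) := by
      refine (n4.sub w1_nonneg (α := 1) one_pos m4).mono ?_
      linarith
    have htot : ∀ i < I, |tot (u - v) i| ≤ 2 * ζ := by
      intro i hi
      rw [tot_sub n4 m4, hu, hv, tot_sub hgW hgW', tot_sub hhW hhW']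
      have q1 := hprn 0 (Nat.zero_le _) i hi
      have q2 := hpr 0 (Nat.zero_le _) i hi
      rw [pr_zero, pr_zero] at q1 q2
      rw [abs_le] at q1 q2 ⊢
      constructor <;> linarith [q1.1, q1.2, q2.1, q2.2]
    obtain ⟨T0, hT0⟩ := time_tail he hε1
    set T : ℕ := max T0 1 with hTdef
    have hT : BB w1 (geT T (u - v)) ε1 := hT0.geT_mono (le_max_left _ _)
    have hsum : ∀ i < I, |S (u - v) (i, 0, T)| ≤ κ := by
      intro i hi
      have q1 := tot_near he hT i
      have q2 := htot i hi
      have q3 : ζ ≤ κ / 4 := min_le_right _ _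
      calc |S (u - v) (i, 0, T)| = |(S (u - v) (i, 0, T) - tot (u - v) i) + tot (u - v) i| := by
            congr 1; ring
        _ ≤ _ := abs_add_le _ _
        _ ≤ κ := by linarith
    set θ : ℝ := Real.sqrt ε / (2 * (((I * T : ℕ) : ℝ) + 1)) with hθdef
    have hθ : 0 < θ := by
      have := Real.sqrt_pos.2 hε
      positivity
    have hθε : ((I * T : ℕ) : ℝ) ^ 2 * (2 * θ) ^ 2 ≤ ε := by
      have e1 : 2 * θ = Real.sqrt ε / (((I * T : ℕ) : ℝ) + 1) := by
        rw [hθdef]; field_simp
      rw [e1, div_pow, Real.sq_sqrt hε.le, ← mul_div_assoc, div_le_iff₀ (by positivity)]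
      nlinarith [Nat.cast_nonneg (α := ℝ) (I * T), hε.le]
    have s1 := WL_small r n1 I T hθ
    have s2 := WL_small r m1 I T hθ
    refine AU2_mono r ?_ (AU2_and r hmain (AU2_and r (AU2_left r s1) (AU2_right r s2)))
    rintro l l' ⟨k1, k2, k3⟩
    have hstep := det_step r I T (le_max_right _ _) hα hκ.le
      (by positivity : 0 ≤ 2 * θ) hκε hθε hfin (e := u - v)
      (D := (g (n :: l) - WL r (fun l => g (n :: l)))
        - (h (n' :: l') - WL r (fun l => h (n' :: l)))) he (by
        intro i t hi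
        have z1 : WL r (fun l => g (n :: l)) i t = 0 := WL_zero r (fun l => hgI _ i t hi)
        have z2 : WL (r + 1) g i t = 0 := WL_zero (r + 1) (fun l => hgI _ i t hi)
        have z3 : WL r (fun l => h (n' :: l)) i t = 0 := WL_zero r (fun l => hhI _ i t hi)
        have z4 : WL (r + 1) h i t = 0 := WL_zero (r + 1) (fun l => hhI _ i t hi)
        simp only [hu, hv, Pi.sub_apply, z1, z2, z3, z4]
        norm_num) (by
        intro i t hi
        have z1 : WL r (fun l => g (n :: l)) i t = 0 := WL_zero r (fun l => hgI _ i t hi)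
        have z3 : WL r (fun l => h (n' :: l)) i t = 0 := WL_zero r (fun l => hhI _ i t hi)
        simp only [Pi.sub_apply, z1, z3, hgI _ i t hi, hhI _ i t hi]
        norm_num) (hT.mono (min_le_left _ _)) hsum k1 (by
        intro i hi t ht
        have q1 := k2 i hi t ht
        have q2 := k3 i hi t ht
        simp only [Pi.sub_apply]
        rw [abs_le] at q1 q2 ⊢
        constructor <;> linarith [q1.1, q1.2, q2.1, q2.2])
    have hD : (u - v) + ((g (n :: l) - WL r (fun l => g (n :: l)))
        - (h (n' :: l') - WL r (fun l => h (n' :: l))))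
        = (g (n :: l) - WL (r + 1) g) - (h (n' :: l') - WL (r + 1) h) := by
      rw [hu, hv]; abel
    rw [hD] at hstep
    push_cast
    exact hstep

end Pool.Agent.R302.HJ
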