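import Mathlib

/-!
The `ell_2`-sum of James spaces in increment coordinates: basic definitions.

`y i t` is the coordinate of `y` in the copy `i` at time `t`.  A jump is `(i, a, b)`; the sum over
the interval `[a, b)` in copy `i` is `S y (i, a, b)`.  The (square of the) James norm is the
supremum of `Q w1 l y` over all admissible lists `l` of jumps.
-/

set_option autoImplicit false

noncomputable section

namespace Pool.Agent.R302.HJ

/-- functions of (copy, time) -/
abbrev Fn := ℕ → ℕ → ℝ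

/-- jumps: (copy, start, end) -/
abbrev Jmp := ℕ × ℕ × ℕ

/-- interval sum -/
def S (y : Fn) (j : Jmp) : ℝ := ∑ t ∈ Finset.Ico j.2.1 j.2.2, y j.1 t

/-- two jumps in the same copy have separated intervals -/
def Sep (j k : Jmp) : Prop := j.1 = k.1 → j.2.2 ≤ k.2.1 ∨ k.2.2 ≤ j.2.1

/-- admissible lists of jumps -/
def Adm (l : List Jmp) : Prop := l.Pairwise Sep ∧ ∀ j ∈ l, j.2.1 ≤ j.2.2

/-- the weighted quadratic expression of a list of jumps -/
def Q (w : ℕ → ℝ) (l : List Jmp) (y : Fn) : ℝ := (l.map (fun j => w j.2.1 * (S y j) ^ 2)).sum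

/-- `BB w y A`: the weighted square norm of `y` is at most `A` -/
def BB (w : ℕ → ℝ) (y : Fn) (A : ℝ) : Prop := ∀ l, Adm l → Q w l y ≤ A

/-- weight one -/
def w1 : ℕ → ℝ := fun _ => 1

/-- weight two for the jumps which start at time zero -/
def w2 : ℕ → ℝ := fun a => if a = 0 then 2 else 1

theorem w1_nonneg : ∀ a, 0 ≤ w1 a := fun _ => by norm_num [w1]

theorem w2_nonneg : ∀ a, 0 ≤ w2 a := fun a => by unfold w2; split_ifs <;> norm_num

theorem adm_nil : Adm [] := ⟨List.Pairwise.nil, by simp⟩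

theorem BB.nonneg {w : ℕ → ℝ} {y : Fn} {A : ℝ} (h : BB w y A) : 0 ≤ A := by
  have := h [] adm_nil
  simpa [Q] using this

theorem S_add (x y : Fn) (j : Jmp) : S (x + y) j = S x j + S y j := by
  simp [S, Finset.sum_add_distrib]

theorem S_sub (x y : Fn) (j : Jmp) : S (x - y) j = S x j - S y j := by
  simp [S, Finset.sum_sub_distrib]

theorem S_neg (x : Fn) (j : Jmp) : S (-x) j = - S x j := by
  simp [S, Finset.sum_neg_distrib]

theorem S_smul (c : ℝ) (x : Fn) (j : Jmp) : S (c • x) j = c * S x j := by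
  simp [S, Finset.mul_sum]

theorem Q_cons (w : ℕ → ℝ) (j : Jmp) (l : List Jmp) (y : Fn) :
    Q w (j :: l) y = w j.2.1 * (S y j) ^ 2 + Q w l y := by
  simp [Q]

theorem Q_append (w : ℕ → ℝ) (l l' : List Jmp) (y : Fn) :
    Q w (l ++ l') y = Q w l y + Q w l' y := by
  simp [Q]

theorem Q_nil (w : ℕ → ℝ) (y : Fn) : Q w [] y = 0 := by simp [Q]

theorem Q_nonneg {w : ℕ → ℝ} (hw : ∀ a, 0 ≤ w a) (l : List Jmp) (y : Fn) : 0 ≤ Q w l y := by
  induction l with
  | nil => simp [Q]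
  | cons j l ih =>
    rw [Q_cons]
    have := mul_nonneg (hw j.2.1) (sq_nonneg (S y j))
    linarith

theorem Q_neg (w : ℕ → ℝ) (l : List Jmp) (y : Fn) : Q w l (-y) = Q w l y := by
  simp [Q, S_neg]

theorem Q_smul (w : ℕ → ℝ) (l : List Jmp) (c : ℝ) (y : Fn) :
    Q w l (c • y) = c ^ 2 * Q w l y := by
  induction l with
  | nil => simp [Q]
  | cons j l ih =>
    rw [Q_cons, Q_cons, ih, S_smul]; ring

theorem Q_add_le {w : ℕ → ℝ} (hw : ∀ a, 0 ≤ w a) {α : ℝ} (hα : 0 < α) (l : List Jmp) (x y : Fn) :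
    Q w l (x + y) ≤ (1 + α) * Q w l x + (1 + 1 / α) * Q w l y := by
  induction l with
  | nil => simp [Q]
  | cons j l ih =>
    rw [Q_cons, Q_cons, Q_cons, S_add]
    have h1 : (S x j + S y j) ^ 2 ≤ (1 + α) * (S x j) ^ 2 + (1 + 1 / α) * (S y j) ^ 2 := by
      have h2 : 0 ≤ (α * S x j - S y j) ^ 2 / α := by positivity
      have h3 : (α * S x j - S y j) ^ 2 / α
          = α * (S x j) ^ 2 - 2 * S x j * S y j + 1 / α * (S y j) ^ 2 := by
        field_simp
        ring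
      rw [h3] at h2
      linarith [h2, sq_nonneg (S x j + S y j)]
    have h4 := mul_le_mul_of_nonneg_left h1 (hw j.2.1)
    linarith

theorem BB.add {w : ℕ → ℝ} (hw : ∀ a, 0 ≤ w a) {α : ℝ} (hα : 0 < α) {x y : Fn} {a b : ℝ}
    (hx : BB w x a) (hy : BB w y b) : BB w (x + y) ((1 + α) * a + (1 + 1 / α) * b) := by
  intro l hl
  refine (Q_add_le hw hα l x y).trans ?_
  have h1 := mul_le_mul_of_nonneg_left (hx l hl) (by positivity : 0 ≤ 1 + α)
  have h2 := mul_le_mul_of_nonneg_left (hy l hl) (by positivity : 0 ≤ 1 + 1 / α)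
  linarith

theorem BB.neg {w : ℕ → ℝ} {y : Fn} {A : ℝ} (h : BB w y A) : BB w (-y) A := by
  intro l hl
  rw [Q_neg]; exact h l hl

theorem BB.sub {w : ℕ → ℝ} (hw : ∀ a, 0 ≤ w a) {α : ℝ} (hα : 0 < α) {x y : Fn} {a b : ℝ}
    (hx : BB w x a) (hy : BB w y b) : BB w (x - y) ((1 + α) * a + (1 + 1 / α) * b) := by
  rw [sub_eq_add_neg]
  exact hx.add hw hα hy.neg

theorem BB.mono {w : ℕ → ℝ} {y : Fn} {A B : ℝ} (h : BB w y A) (hAB : A ≤ B) : BB w y B :=
  fun l hl => (h l hl).trans hAB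

theorem Q_w1_le_w2 (l : List Jmp) (y : Fn) : Q w1 l y ≤ Q w2 l y := by
  induction l with
  | nil => simp [Q]
  | cons j l ih =>
    rw [Q_cons, Q_cons]
    have h : w1 j.2.1 ≤ w2 j.2.1 := by unfold w1 w2; split_ifs <;> norm_num
    have := mul_le_mul_of_nonneg_right h (sq_nonneg (S y j))
    linarith

theorem Q_w2_le (l : List Jmp) (y : Fn) : Q w2 l y ≤ 2 * Q w1 l y := by
  induction l with
  | nil => simp [Q]
  | cons j l ih =>
    rw [Q_cons, Q_cons]
    have h : w2 j.2.1 ≤ 2 * w1 j.2.1 := by unfold w1 w2; split_ifs <;> norm_num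
    have := mul_le_mul_of_nonneg_right h (sq_nonneg (S y j))
    linarith

theorem BB.w1_of_w2 {y : Fn} {A : ℝ} (h : BB w2 y A) : BB w1 y A :=
  fun l hl => (Q_w1_le_w2 l y).trans (h l hl)

theorem BB.w2_of_w1 {y : Fn} {A : ℝ} (h : BB w1 y A) : BB w2 y (2 * A) :=
  fun l hl => (Q_w2_le l y).trans (by have := h l hl; linarith)

/-- one jump -/
theorem BB.jump {y : Fn} {A : ℝ} (h : BB w1 y A) (i a b : ℕ) (hab : a ≤ b) :
    (S y (i, a, b)) ^ 2 ≤ A := by
  have := h [(i, a, b)] ⟨List.pairwise_singleton _ _, by simpa using hab⟩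
  simpa [Q, w1] using this

/-- one coordinate -/
theorem BB.coord {y : Fn} {A : ℝ} (h : BB w1 y A) (i t : ℕ) : (y i t) ^ 2 ≤ A := by
  have := h.jump i t (t + 1) (by omega)
  simpa [S] using this

end Pool.Agent.R302.HJ
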