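import Pool.Agent.R302.HJ.BPart

set_option autoImplicit false

noncomputable section

namespace Pool.Agent.R302.HJ

open Filter Topology

theorem LipT_res (P : ℕ → Prop) : ∀ (r : ℕ) {A : ℝ} {g : List ℕ → Fn}, LipT r A g →
    LipT r A (fun l => res P (g l))
  | 0, _, _, _ => trivial
  | (r + 1), A, g, h => by
    refine ⟨?_, ?_⟩
    · filter_upwards [h.1] with n hn
      filter_upwards [hn] with n' hn'
      refine AU_mono r ?_ hn'
      intro l hl
      rw [← res_sub]
      exact hl.res P
    · filter_upwards [h.2] with n hn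
      exact LipT_res P r hn

/-- the concentration inequality -/
theorem conc {A C : ℝ} (hA : 0 < A) (m : ℕ) {f : List ℕ → Fn} (hL : LipT m A f)
    (hB : BT m C f) (hfs : ∀ l, ∃ I, ∀ i t, I ≤ i → f l i t = 0) :
    AU2 m (fun l l' => BB w1 (f l - f l') (17 * A * m)) := by
  obtain ⟨I, hI⟩ := Apart hA m hL hB hfs
  obtain ⟨η, hη, hmain⟩ := Bpart (A := A) (C := C) hA I m
  have h0 : ∀ l i t, I ≤ i → res (fun i => i < I) (f l) i t = 0 := by
    intro l i t hi
    simp only [res]
    rw [if_neg (by omega)]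
  have h1 := hmain (fun l => res (fun i => i < I) (f l)) (fun l => res (fun i => i < I) (f l))
    (LipT_res _ m hL) (LipT_res _ m hL) (AU_mono m (fun l hl => hl.res _) hB)
    (AU_mono m (fun l hl => hl.res _) hB) h0 h0 (fun k _ i _ => by simpa using hη.le)
  refine AU2_mono m ?_ (AU2_and m h1 (AU2_and m (AU2_left m hI) (AU2_right m hI)))
  rintro l l' ⟨e1, e2, e3⟩
  have e4 : BB w1 (res (fun i => i < I) (f l - f l')) (9 * A * m) := by
    refine (BB.w1_of_w2 ?_)
    convert e1 using 1
    rw [res_sub]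
    abel
  have e5 : BB w1 (res (fun i => I ≤ i) (f l - f l')) (8 * A * m) := by
    rw [res_sub]
    refine (e2.sub w1_nonneg (α := 1) one_pos e3).mono ?_
    linarith
  have e6 := BB.split (P := fun _ => True) (fun i => ?_) (fun i hi => ?_) e4 e5
  · have e7 : res (fun _ => True) (f l - f l') = f l - f l' := by
      funext i t
      simp [res]
    rw [e7] at e6
    refine e6.mono ?_
    linarith
  · simp only [true_iff]
    exact lt_or_ge i I
  · have := hi.1; have := hi.2; omega

theorem ev_gt (N : ℕ) : ∀ᶠ n in (U : Filter ℕ), N < n :=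
  Nat.hyperfilter_le_atTop (Filter.eventually_gt_atTop N)

theorem AU_sorted : ∀ (r N : ℕ), AU r (fun s => s.length = r ∧ s.Pairwise (· < ·) ∧
    ∀ x ∈ s, N < x)
  | 0, N => ⟨rfl, List.Pairwise.nil, by simp⟩
  | (r + 1), N => by
    show ∀ᶠ n in (U : Filter ℕ), AU r _
    filter_upwards [ev_gt N] with n hn
    refine AU_mono r ?_ (AU_sorted r n)
    rintro s ⟨h1, h2, h3⟩
    refine ⟨by simp [h1], List.pairwise_cons.2 ⟨h3, h2⟩, ?_⟩
    intro x hx
    rcases List.mem_cons.1 hx with rfl | hx
    · exact hn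
    · exact hn.trans (h3 x hx)

theorem AU2_sorted : ∀ (r N : ℕ), AU2 r (fun l l' => (l.length = r ∧ l.Pairwise (· < ·) ∧
    ∀ x ∈ l, N < x) ∧ (l'.length = r ∧ l'.Pairwise (· < ·) ∧ ∀ x ∈ l', N < x) ∧
    ∀ x ∈ l, x ∉ l')
  | 0, N => ⟨⟨rfl, List.Pairwise.nil, by simp⟩, ⟨rfl, List.Pairwise.nil, by simp⟩, by simp⟩
  | (r + 1), N => by
    show ∀ᶠ n in (U : Filter ℕ), ∀ᶠ n' in (U : Filter ℕ), AU2 r _
    filter_upwards [ev_gt N] with n hn
    filter_upwards [ev_gt n] with n' hn'
    refine AU2_mono r ?_ (AU2_sorted r n')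
    rintro l l' ⟨⟨h1, h2, h3⟩, ⟨k1, k2, k3⟩, hd⟩
    refine ⟨⟨by simp [h1], List.pairwise_cons.2 ⟨fun x hx => hn'.trans (h3 x hx), h2⟩, ?_⟩,
      ⟨by simp [k1], List.pairwise_cons.2 ⟨k3, k2⟩, ?_⟩, ?_⟩
    · intro x hx
      rcases List.mem_cons.1 hx with rfl | hx
      · exact hn
      · exact (hn.trans hn').trans (h3 x hx)
    · intro x hx
      rcases List.mem_cons.1 hx with rfl | hx
      · exact hn.trans hn'
      · exact (hn.trans hn').trans (k3 x hx)
    · intro x hx hx'
      rcases List.mem_cons.1 hx with rfl | hx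
      · rcases List.mem_cons.1 hx' with rfl | hx'
        · exact lt_irrefl _ hn'
        · exact lt_irrefl _ (hn'.trans (k3 x hx'))
      · rcases List.mem_cons.1 hx' with rfl | hx'
        · exact lt_irrefl _ (h3 x hx)
        · exact hd x hx hx'

theorem AU2_exists : ∀ (m : ℕ) {P : List ℕ → List ℕ → Prop}, AU2 m P → ∃ l l', P l l'
  | 0, _, h => ⟨_, _, h⟩
  | (m + 1), _, h => by
    obtain ⟨n, hn⟩ := (show ∀ᶠ n in (U : Filter ℕ), ∀ᶠ n' in (U : Filter ℕ), AU2 m _
      from h).exists
    obtain ⟨n', hn'⟩ := hn.exists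
    obtain ⟨l, l', hl⟩ := AU2_exists m hn'
    exact ⟨n :: l, n' :: l', hl⟩

/-- the Lipschitz condition along the tree from the Lipschitz condition on increasing tuples -/
theorem LipT_of {m : ℕ} {A : ℝ} {F : List ℕ → Fn}
    (H : ∀ (p s : List ℕ) (n n' : ℕ), (p ++ n :: s).length = m → (p ++ n :: s).Pairwise (· < ·) →
      (p ++ n' :: s).Pairwise (· < ·) → BB w1 (F (p ++ n :: s) - F (p ++ n' :: s)) A) :
    ∀ (r : ℕ) (p : List ℕ), p.length + r = m → p.Pairwise (· < ·) →
      LipT r A (fun l => F (p ++ l))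
  | 0, _, _, _ => trivial
  | (r + 1), p, hp, hs => by
    have hbd : ∃ N, ∀ x ∈ p, x < N := by
      refine ⟨p.sum + 1, fun x hx => ?_⟩
      have := List.le_sum_of_mem hx
      omega
    obtain ⟨N, hN⟩ := hbd
    refine ⟨?_, ?_⟩
    · filter_upwards [ev_gt N] with n hn
      filter_upwards [ev_gt n] with n' hn'
      refine AU_mono r ?_ (AU_sorted r n')
      rintro s ⟨h1, h2, h3⟩
      refine H p s n n' ?_ ?_ ?_
      · simp only [List.length_append, List.length_cons, h1]
        omega
      · refine List.pairwise_append.2 ⟨hs, List.pairwise_cons.2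
          ⟨fun x hx => hn'.trans (h3 x hx), h2⟩, ?_⟩
        intro a ha b hb
        rcases List.mem_cons.1 hb with rfl | hb
        · exact (hN a ha).trans hn
        · exact (((hN a ha).trans hn).trans hn').trans (h3 b hb)
      · refine List.pairwise_append.2 ⟨hs, List.pairwise_cons.2 ⟨h3, h2⟩, ?_⟩
        intro a ha b hb
        rcases List.mem_cons.1 hb with rfl | hb
        · exact ((hN a ha).trans hn).trans hn'
        · exact (((hN a ha).trans hn).trans hn').trans (h3 b hb)
    · filter_upwards [ev_gt N] with n hn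
      have h4 := LipT_of H r (p ++ [n]) (by simp; omega) (by
        refine List.pairwise_append.2 ⟨hs, List.pairwise_singleton _ _, ?_⟩
        intro a ha b hb
        rw [List.mem_singleton.1 hb]
        exact (hN a ha).trans hn)
      simpa [List.append_assoc] using h4

/-- the tuple of a list -/
def tup (m : ℕ) (l : List ℕ) : Fin m → ℕ := fun i => l.getD i.val 0

theorem tup_strictMono {m : ℕ} {l : List ℕ} (hl : l.length = m) (hs : l.Pairwise (· < ·)) :
    StrictMono (tup m l) := by
  intro i j hij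
  unfold tup
  rw [List.getD_eq_getElem _ _ (by omega), List.getD_eq_getElem _ _ (by omega)]
  exact List.pairwise_iff_getElem.1 hs _ _ (by omega) (by omega) hij

theorem tup_mem {m : ℕ} {l : List ℕ} (hl : l.length = m) (i : Fin m) : tup m l i ∈ l := by
  unfold tup
  rw [List.getD_eq_getElem _ _ (by omega)]
  exact List.getElem_mem _

theorem tup_hamming (m : ℕ) (p s : List ℕ) (n n' : ℕ) :
    hammingDist (tup m (p ++ n :: s)) (tup m (p ++ n' :: s)) ≤ 1 := by
  unfold hammingDist
  rw [Finset.card_le_one]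
  have key : ∀ i : Fin m, tup m (p ++ n :: s) i ≠ tup m (p ++ n' :: s) i →
      i.val = p.length := by
    intro i hi
    by_contra hne
    apply hi
    unfold tup
    rcases lt_or_gt_of_ne hne with h | h
    · rw [List.getD_append _ _ _ _ h, List.getD_append _ _ _ _ h]
    · rw [List.getD_append_right _ _ _ _ h.le, List.getD_append_right _ _ _ _ h.le]
      obtain ⟨c, hc⟩ : ∃ c, i.val - p.length = c + 1 := ⟨i.val - p.length - 1, by omega⟩
      rw [hc, List.getD_cons_succ, List.getD_cons_succ]
  intro i hi j hj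
  have h1 := key i (Finset.mem_filter.1 hi).2
  have h2 := key j (Finset.mem_filter.1 hj).2
  exact Fin.ext (h1.trans h2.symm)

/-- coordinates of a finitely supported family -/
def cvf (v : (ℕ × ℕ) →₀ ℝ) : Fn := fun i t => v (i, t)

theorem cvf_sub (v w : (ℕ × ℕ) →₀ ℝ) : cvf (v - w) = cvf v - cvf w := by
  funext i t
  simp [cvf]

/-- no map with the two bounds into a space whose dense part is normed by the James norm -/
theorem no_map {X : Type} [NormedAddCommGroup X] [NormedSpace ℝ X]
    (J : ((ℕ × ℕ) →₀ ℝ) →ₗ[ℝ] X) (hd : DenseRange J)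
    (h1 : ∀ v A, BB w1 (cvf v) A → ‖J v‖ ^ 2 ≤ A) (h2 : ∀ v, BB w1 (cvf v) (‖J v‖ ^ 2))
    (ℓ : ℕ) (hℓ : 1 ≤ ℓ) (L : ℝ) (hL : 0 < L)
    (H : ∀ k : ℕ, ∃ f : (Fin (ℓ * k) → ℕ) → X,
      ∀ x y : Fin (ℓ * k) → ℕ, StrictMono x → StrictMono y →
        ((symmDiff ((Finset.univ.filter (fun i : Fin (ℓ * k) => i.val < k)).image x)
            ((Finset.univ.filter (fun i : Fin (ℓ * k) => i.val < k)).image y)).card : ℝ) / 2
          ≤ ‖f x - f y‖ ∧
        ‖f x - f y‖ ≤ L * (hammingDist x y : ℝ)) : False := by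
  classical
  set A : ℝ := (L + 1 / 2) ^ 2 with hAdef
  have hA : 0 < A := by positivity
  obtain ⟨k, hk⟩ := exists_nat_gt (17 * A * ℓ + 2)
  have Hk := H k
  generalize hm : ℓ * k = m at Hk
  obtain ⟨f, hf⟩ := Hk
  have happ : ∀ x : Fin m → ℕ, ∃ v : (ℕ × ℕ) →₀ ℝ, ‖f x - J v‖ ≤ 1 / 4 := by
    intro x
    obtain ⟨v, hv⟩ := hd.exists_dist_lt (f x) (ε := 1 / 4) (by norm_num)
    refine ⟨v, ?_⟩
    rw [← dist_eq_norm]
    exact hv.le
  choose v hv using happ
  have hdiff : ∀ x y : Fin m → ℕ, ‖J (v x - v y)‖ ≤ ‖f x - f y‖ + 1 / 2 := by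
    intro x y
    have e1 : J (v x - v y) = (f x - f y) - (f x - J (v x)) + (f y - J (v y)) := by
      rw [map_sub]; abel
    rw [e1]
    have e2 := norm_add_le ((f x - f y) - (f x - J (v x))) (f y - J (v y))
    have e3 := norm_sub_le (f x - f y) (f x - J (v x))
    have e4 := hv x
    have e5 := hv y
    linarith
  have hdiff2 : ∀ x y : Fin m → ℕ, ‖f x - f y‖ ≤ ‖J (v x - v y)‖ + 1 / 2 := by
    intro x y
    have e1 : f x - f y = J (v x - v y) + (f x - J (v x)) - (f y - J (v y)) := by
      rw [map_sub]; abel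
    rw [e1]
    have e2 := norm_sub_le (J (v x - v y) + (f x - J (v x))) (f y - J (v y))
    have e3 := norm_add_le (J (v x - v y)) (f x - J (v x))
    have e4 := hv x
    have e5 := hv y
    linarith
  let F : List ℕ → Fn := fun l => cvf (v (tup m l))
  -- Lipschitz
  have hLip : LipT m A F := by
    have := LipT_of (m := m) (A := A) (F := F) (by
      intro p s n n' hlen hs hs'
      have hlen' : (p ++ n' :: s).length = m := by
        rw [← hlen]; simp
      have e1 := (hf _ _ (tup_strictMono hlen hs) (tup_strictMono hlen' hs')).2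
      have e2 : (hammingDist (tup m (p ++ n :: s)) (tup m (p ++ n' :: s)) : ℝ) ≤ 1 := by
        exact_mod_cast tup_hamming m p s n n'
      have e3 : ‖J (v (tup m (p ++ n :: s)) - v (tup m (p ++ n' :: s)))‖ ≤ L + 1 / 2 := by
        refine (hdiff _ _).trans ?_
        have := mul_le_mul_of_nonneg_left e2 hL.le
        linarith
      show BB w1 (cvf _ - cvf _) A
      rw [← cvf_sub]
      exact (h2 _).mono (pow_le_pow_left₀ (norm_nonneg _) e3 2)) m [] (by simp)
      List.Pairwise.nil
    simpa using this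
  -- boundedness
  set C0 : ℝ := ‖f (fun i => i.val)‖ + L * m + 1 / 4 with hC0
  have hBT : BT m (C0 ^ 2) F := by
    refine AU_mono m ?_ (AU_sorted m 0)
    rintro l ⟨q1, q2, _⟩
    refine (h2 _).mono (pow_le_pow_left₀ (norm_nonneg _) ?_ 2)
    have e1 := (hf _ _ (tup_strictMono q1 q2)
      (show StrictMono (fun i : Fin m => i.val) from fun i j hij => hij)).2
    have e2 : (hammingDist (tup m l) (fun i : Fin m => i.val) : ℝ) ≤ m := by
      have := hammingDist_le_card_fintype (x := tup m l) (y := fun i : Fin m => i.val)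
      rw [Fintype.card_fin] at this
      exact_mod_cast this
    have e3 : J (v (tup m l)) = (f (tup m l) - f (fun i => i.val)) + f (fun i => i.val)
        - (f (tup m l) - J (v (tup m l))) := by abel
    rw [e3]
    have e4 := norm_sub_le ((f (tup m l) - f (fun i => i.val)) + f (fun i => i.val))
      (f (tup m l) - J (v (tup m l)))
    have e5 := norm_add_le (f (tup m l) - f (fun i => i.val)) (f (fun i => i.val))
    have e6 := hv (tup m l)
    have e7 := mul_le_mul_of_nonneg_left e2 hL.le
    rw [hC0]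
    linarith
  have hfs : ∀ l, ∃ I, ∀ i t, I ≤ i → F l i t = 0 := by
    intro l
    refine ⟨(v (tup m l)).support.sup (fun p => p.1) + 1, ?_⟩
    intro i t hi
    show v (tup m l) (i, t) = 0
    by_contra hne
    have e1 : (i, t) ∈ (v (tup m l)).support := Finsupp.mem_support_iff.2 hne
    have e2 := Finset.le_sup (f := fun p : ℕ × ℕ => p.1) e1
    simp only at e2
    omega
  have hc := conc hA m hLip hBT hfs
  obtain ⟨l, l', hBB, ⟨q1, q2, _⟩, ⟨q3, q4, _⟩, hdis⟩ := AU2_exists m (AU2_and m hc (AU2_sorted m 0))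
  have e1 : ‖J (v (tup m l) - v (tup m l'))‖ ^ 2 ≤ 17 * A * m := by
    refine h1 _ _ ?_
    rw [cvf_sub]
    exact hBB
  have e2 := (hf _ _ (tup_strictMono q1 q2) (tup_strictMono q3 q4)).1
  have e3 := hdiff2 (tup m l) (tup m l')
  -- cardinality
  have hcard : (Finset.univ.filter (fun i : Fin m => i.val < k)).card = k := by
    have hkm : k ≤ m := by
      rw [← hm]; exact Nat.le_mul_of_pos_left k hℓ
    have : (Finset.univ.filter (fun i : Fin m => i.val < k))
        = (Finset.univ : Finset (Fin k)).map (Fin.castLEEmb hkm) := by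
      ext i
      simp only [Finset.mem_filter, Finset.mem_univ, true_and, Finset.mem_map]
      constructor
      · intro hi
        exact ⟨⟨i.val, hi⟩, by ext; rfl⟩
      · rintro ⟨j, rfl⟩
        exact j.2
    rw [this, Finset.card_map, Finset.card_univ, Fintype.card_fin]
  have hsd : (symmDiff ((Finset.univ.filter (fun i : Fin m => i.val < k)).image (tup m l))
      ((Finset.univ.filter (fun i : Fin m => i.val < k)).image (tup m l'))).card = 2 * k := by
    have hdj : Disjoint ((Finset.univ.filter (fun i : Fin m => i.val < k)).image (tup m l))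
        ((Finset.univ.filter (fun i : Fin m => i.val < k)).image (tup m l')) := by
      rw [Finset.disjoint_left]
      intro a ha hb
      obtain ⟨i, _, rfl⟩ := Finset.mem_image.1 ha
      obtain ⟨j, _, hj⟩ := Finset.mem_image.1 hb
      refine hdis _ (tup_mem q1 i) ?_
      rw [← hj]
      exact tup_mem q3 j
    rw [hdj.symmDiff_eq_sup, Finset.sup_eq_union, Finset.card_union_of_disjoint hdj,
      Finset.card_image_of_injective _ (tup_strictMono q1 q2).injective,
      Finset.card_image_of_injective _ (tup_strictMono q3 q4).injective, hcard]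
    ring
  rw [hsd] at e2
  push_cast at e2
  have e4 : (k : ℝ) - 1 / 2 ≤ ‖J (v (tup m l) - v (tup m l'))‖ := by linarith
  have hk0 : (2 : ℝ) < k := by
    have : 0 ≤ 17 * A * ℓ := by positivity
    linarith
  have e5 : ((k : ℝ) - 1 / 2) ^ 2 ≤ 17 * A * m :=
    (pow_le_pow_left₀ (by linarith) e4 2).trans e1
  have e6 : (m : ℝ) = ℓ * k := by rw [← hm]; push_cast; ring
  rw [e6] at e5
  nlinarith

end Pool.Agent.R302.HJ
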