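import Pool.Agent.R302.HJ.Defs

set_option autoImplicit false

noncomputable section

namespace Pool.Agent.R302.HJ

open Classical in
/-- restriction to the copies in `P` -/
def res (P : ℕ → Prop) (y : Fn) : Fn := fun i t => if P i then y i t else 0

theorem S_res (P : ℕ → Prop) (y : Fn) (j : Jmp) [Decidable (P j.1)] :
    S (res P y) j = if P j.1 then S y j else 0 := by
  unfold S res
  by_cases h : P j.1 <;> simp [h]

theorem adm_filter {l : List Jmp} (h : Adm l) (p : Jmp → Bool) : Adm (l.filter p) :=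
  ⟨h.1.filter _, fun j hj => h.2 j (List.mem_of_mem_filter hj)⟩

open Classical in
theorem Q_res (w : ℕ → ℝ) (P : ℕ → Prop) (l : List Jmp) (y : Fn) :
    Q w l (res P y) = Q w (l.filter (fun j => decide (P j.1))) y := by
  induction l with
  | nil => simp [Q]
  | cons j l ih =>
    rw [Q_cons, ih, S_res]
    by_cases h : P j.1
    · rw [List.filter_cons_of_pos (by simpa using h), Q_cons, if_pos h]
    · rw [List.filter_cons_of_neg (by simpa using h), if_neg h]
      simp

theorem BB.res {w : ℕ → ℝ} {y : Fn} {A : ℝ} (h : BB w y A) (P : ℕ → Prop) :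
    BB w (res P y) A := by
  classical
  intro l hl
  rw [Q_res]
  exact h _ (adm_filter hl _)

theorem Q_split (w : ℕ → ℝ) (l : List Jmp) (y : Fn) {P P1 P2 : ℕ → Prop}
    (h : ∀ i, P i ↔ (P1 i ∨ P2 i)) (hd : ∀ i, ¬ (P1 i ∧ P2 i)) :
    Q w l (res P y) = Q w l (res P1 y) + Q w l (res P2 y) := by
  classical
  induction l with
  | nil => simp [Q]
  | cons j l ih =>
    rw [Q_cons, Q_cons, Q_cons, ih, S_res, S_res, S_res]
    have h1 := h j.1
    have h2 := hd j.1
    by_cases a : P1 j.1 <;> by_cases b : P2 j.1 <;> simp_all <;> ring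

theorem BB.split {w : ℕ → ℝ} {y : Fn} {a b : ℝ} {P P1 P2 : ℕ → Prop}
    (h : ∀ i, P i ↔ (P1 i ∨ P2 i)) (hd : ∀ i, ¬ (P1 i ∧ P2 i))
    (h1 : BB w (HJ.res P1 y) a) (h2 : BB w (HJ.res P2 y) b) : BB w (HJ.res P y) (a + b) := by
  intro l hl
  rw [Q_split w l y h hd]
  exact add_le_add (h1 l hl) (h2 l hl)

theorem not_BB_super {w : ℕ → ℝ} {y : Fn} {a b : ℝ} {P P1 P2 : ℕ → Prop}
    (h1P : ∀ i, P1 i → P i) (h2P : ∀ i, P2 i → P i) (hd : ∀ i, ¬ (P1 i ∧ P2 i))
    (h1 : ¬ BB w (res P1 y) a) (h2 : ¬ BB w (res P2 y) b) : ¬ BB w (res P y) (a + b) := by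
  classical
  unfold BB at h1 h2
  push Not at h1 h2
  obtain ⟨l1, hl1, q1⟩ := h1
  obtain ⟨l2, hl2, q2⟩ := h2
  intro hB
  have key := hB (l1.filter (fun j => decide (P1 j.1)) ++ l2.filter (fun j => decide (P2 j.1)))
    (by
      refine ⟨List.pairwise_append.2 ⟨(adm_filter hl1 _).1, (adm_filter hl2 _).1, ?_⟩, ?_⟩
      · intro j hj k hk hjk
        exfalso
        have e1 := List.of_mem_filter hj
        have e2 := List.of_mem_filter hk
        simp only [decide_eq_true_eq] at e1 e2
        rw [hjk] at e1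
        exact hd _ ⟨e1, e2⟩
      · intro j hj
        rcases List.mem_append.1 hj with h | h
        · exact (adm_filter hl1 _).2 j h
        · exact (adm_filter hl2 _).2 j h)
  rw [Q_append, Q_res, Q_res, List.filter_filter, List.filter_filter] at key
  rw [Q_res] at q1 q2
  have e1 : l1.filter (fun j => decide (P j.1) && decide (P1 j.1))
      = l1.filter (fun j => decide (P1 j.1)) := by
    refine List.filter_congr (fun j _ => ?_)
    by_cases h : P1 j.1
    · simp [h, h1P _ h]
    · simp [h]
  have e2 : l2.filter (fun j => decide (P j.1) && decide (P2 j.1))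
      = l2.filter (fun j => decide (P2 j.1)) := by
    refine List.filter_congr (fun j _ => ?_)
    by_cases h : P2 j.1
    · simp [h, h2P _ h]
    · simp [h]
  rw [e1, e2] at key
  linarith

/-- restriction to the times `< T` -/
def ltT (T : ℕ) (y : Fn) : Fn := fun i t => if t < T then y i t else 0

/-- restriction to the times `≥ T` -/
def geT (T : ℕ) (y : Fn) : Fn := fun i t => if T ≤ t then y i t else 0

theorem lt_add_ge (T : ℕ) (y : Fn) : ltT T y + geT T y = y := by
  funext i t
  simp only [Pi.add_apply, ltT, geT]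
  by_cases h : t < T
  · simp [h, Nat.not_le.2 h]
  · simp [h, Nat.le_of_not_lt h]

theorem S_ltT (T : ℕ) (y : Fn) (i a b : ℕ) :
    S (ltT T y) (i, a, b) = S y (i, min a T, min b T) := by
  simp only [S, ltT]
  rw [← Finset.sum_filter, Finset.Ico_filter_lt]
  rcases le_total a T with h | h
  · rw [min_eq_left h]
  · rw [min_eq_right h, Finset.Ico_eq_empty (by omega), Finset.Ico_eq_empty (by omega)]

theorem S_geT (T : ℕ) (y : Fn) (i a b : ℕ) :
    S (geT T y) (i, a, b) = S y (i, max a T, max b T) := by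
  simp only [S, geT]
  rw [← Finset.sum_filter, Finset.Ico_filter_le]
  rcases le_total T b with h | h
  · rw [max_eq_left h]
  · rw [max_eq_right h]
    rcases eq_or_lt_of_le h with h' | h'
    · rw [h']
    · rw [Finset.Ico_eq_empty (by omega), Finset.Ico_eq_empty (by omega)]

theorem adm_map {l : List Jmp} (h : Adm l) (φ : Jmp → Jmp)
    (hS : ∀ j k : Jmp, j.2.1 ≤ j.2.2 → k.2.1 ≤ k.2.2 → Sep j k → Sep (φ j) (φ k))
    (ha : ∀ j : Jmp, j.2.1 ≤ j.2.2 → (φ j).2.1 ≤ (φ j).2.2) : Adm (l.map φ) := by
  constructor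
  · rw [List.pairwise_map]
    exact h.1.imp_of_mem (fun {a b} ha' hb' hab => hS a b (h.2 a ha') (h.2 b hb') hab)
  · intro j hj
    obtain ⟨k, hk, rfl⟩ := List.mem_map.1 hj
    exact ha k (h.2 k hk)

theorem Q_map (l : List Jmp) (φ : Jmp → Jmp) (y x : Fn) (h : ∀ j, S x j = S y (φ j)) :
    Q w1 l x = Q w1 (l.map φ) y := by
  induction l with
  | nil => simp [Q]
  | cons j l ih =>
    rw [List.map_cons, Q_cons, Q_cons, ih, h]
    simp [w1]

theorem BB.ltT {y : Fn} {A : ℝ} (h : BB w1 y A) (T : ℕ) : BB w1 (HJ.ltT T y) A := by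
  intro l hl
  rw [Q_map l (fun j => (j.1, min j.2.1 T, min j.2.2 T)) y (HJ.ltT T y)
    (fun j => S_ltT T y j.1 j.2.1 j.2.2)]
  refine h _ (adm_map hl _ ?_ ?_)
  · intro j k hj hk hjk hi
    have := hjk hi
    simp only
    omega
  · intro j hj
    simp only
    omega

theorem BB.geT {y : Fn} {A : ℝ} (h : BB w1 y A) (T : ℕ) : BB w1 (HJ.geT T y) A := by
  intro l hl
  rw [Q_map l (fun j => (j.1, max j.2.1 T, max j.2.2 T)) y (HJ.geT T y)
    (fun j => S_geT T y j.1 j.2.1 j.2.2)]
  refine h _ (adm_map hl _ ?_ ?_)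
  · intro j k hj hk hjk hi
    have := hjk hi
    simp only
    omega
  · intro j hj
    simp only
    omega

theorem geT_geT {T T' : ℕ} (h : T ≤ T') (y : Fn) : geT T' (geT T y) = geT T' y := by
  funext i t
  simp only [geT]
  by_cases h' : T' ≤ t
  · simp [h', h.trans h']
  · simp [h']

theorem BB.geT_mono {y : Fn} {A : ℝ} {T T' : ℕ} (h : BB w1 (HJ.geT T y) A) (hT : T ≤ T') :
    BB w1 (HJ.geT T' y) A := by
  rw [← geT_geT hT]
  exact h.geT T'

/-- the tails in time of a function of finite norm are small -/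
theorem time_tail {y : Fn} {A : ℝ} (h : BB w1 y A) {ε : ℝ} (hε : 0 < ε) :
    ∃ T, BB w1 (geT T y) ε := by
  by_contra hcon
  push Not at hcon
  have key : ∀ R : ℕ, ∃ (l : List Jmp) (T : ℕ), Adm l ∧ (∀ j ∈ l, j.2.2 ≤ T) ∧
      (R : ℝ) * ε ≤ Q w1 l y := by
    intro R
    induction R with
    | zero => exact ⟨[], 0, adm_nil, by simp, by simp [Q]⟩
    | succ R ih =>
      obtain ⟨l, T, hl, hlT, hlq⟩ := ih
      have h1 := hcon T
      unfold BB at h1
      push Not at h1
      obtain ⟨l', hl', hq'⟩ := h1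
      let φ : Jmp → Jmp := fun j => (j.1, max j.2.1 T, max j.2.2 T)
      rw [Q_map l' φ y (geT T y) (fun j => S_geT T y j.1 j.2.1 j.2.2)] at hq'
      have hadm : Adm (l'.map φ) := by
        refine adm_map hl' _ ?_ ?_
        · intro j k hj hk hjk hi
          have := hjk hi
          simp only [φ]
          omega
        · intro j hj
          simp only [φ]
          omega
      have hbd : ∃ T', ∀ j ∈ l'.map φ, j.2.2 ≤ T' := by
        clear hq' hadm
        induction (l'.map φ) with
        | nil => exact ⟨0, by simp⟩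
        | cons j m ih =>
          obtain ⟨T', hT'⟩ := ih
          refine ⟨max j.2.2 T', ?_⟩
          intro k hk
          rcases List.mem_cons.1 hk with rfl | hk
          · exact le_max_left _ _
          · exact (hT' k hk).trans (le_max_right _ _)
      obtain ⟨T', hT'⟩ := hbd
      refine ⟨l ++ l'.map φ, max T T', ⟨List.pairwise_append.2 ⟨hl.1, hadm.1, ?_⟩, ?_⟩, ?_, ?_⟩
      · intro j hj k hk _
        left
        obtain ⟨k', _, rfl⟩ := List.mem_map.1 hk
        exact (hlT j hj).trans (le_max_right _ _)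
      · intro j hj
        rcases List.mem_append.1 hj with h' | h'
        · exact hl.2 j h'
        · exact hadm.2 j h'
      · intro j hj
        rcases List.mem_append.1 hj with h' | h'
        · exact (hlT j h').trans (le_max_left _ _)
        · exact (hT' j h').trans (le_max_right _ _)
      · rw [Q_append]
        push_cast
        linarith
  obtain ⟨R, hR⟩ := exists_nat_gt (A / ε)
  obtain ⟨l, T, hl, _, hq⟩ := key R
  have h1 := h l hl
  rw [div_lt_iff₀ hε] at hR
  linarith

/-- number of the jumps of a list over a point -/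
def cover (l : List Jmp) (i t : ℕ) : ℝ :=
  (l.map (fun j => if j.1 = i ∧ j.2.1 ≤ t ∧ t < j.2.2 then (1 : ℝ) else 0)).sum

theorem cover_cons (j : Jmp) (l : List Jmp) (i t : ℕ) :
    cover (j :: l) i t = (if j.1 = i ∧ j.2.1 ≤ t ∧ t < j.2.2 then (1 : ℝ) else 0)
      + cover l i t := by
  simp [cover]

theorem cover_zero (l : List Jmp) (i t : ℕ)
    (h : ∀ j ∈ l, ¬ (j.1 = i ∧ j.2.1 ≤ t ∧ t < j.2.2)) : cover l i t = 0 := by
  induction l with
  | nil => simp [cover]
  | cons j l ih =>
    rw [cover_cons, if_neg (h j (by simp)), ih (fun k hk => h k (by simp [hk]))]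
    simp

theorem cover_le {l : List Jmp} (h : Adm l) (i t : ℕ) : cover l i t ≤ 1 := by
  induction l with
  | nil => simp [cover]
  | cons j l ih =>
    have hp := List.pairwise_cons.1 h.1
    have hl : Adm l := ⟨hp.2, fun k hk => h.2 k (by simp [hk])⟩
    rw [cover_cons]
    by_cases hj : j.1 = i ∧ j.2.1 ≤ t ∧ t < j.2.2
    · rw [if_pos hj, cover_zero l i t]
      · simp
      · intro k hk hk'
        have := hp.1 k hk (by rw [hj.1, hk'.1])
        omega
    · rw [if_neg hj]
      have := ih hl
      linarith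

theorem S_sq_le (I T : ℕ) (y : Fn) (hI : ∀ i t, I ≤ i → y i t = 0) (hT : ∀ i t, T ≤ t → y i t = 0)
    (j : Jmp) :
    (S y j) ^ 2 ≤ ((I * T : ℕ) : ℝ) * ∑ p ∈ Finset.range I ×ˢ Finset.range T,
      (if j.1 = p.1 ∧ j.2.1 ≤ p.2 ∧ p.2 < j.2.2 then (1 : ℝ) else 0) * (y p.1 p.2) ^ 2 := by
  have h1 : S y j = ∑ p ∈ Finset.range I ×ˢ Finset.range T,
      if j.1 = p.1 ∧ j.2.1 ≤ p.2 ∧ p.2 < j.2.2 then y p.1 p.2 else 0 := by
    rw [Finset.sum_product]
    by_cases hj : j.1 < I
    · rw [Finset.sum_eq_single j.1]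
      · simp only [true_and]
        rw [← Finset.sum_filter]
        unfold S
        symm
        refine Finset.sum_subset_zero_on_sdiff ?_ ?_ (fun _ _ => rfl)
        · intro t ht
          simp only [Finset.mem_filter, Finset.mem_range] at ht
          simp only [Finset.mem_Ico]
          exact ht.2
        · intro t ht
          simp only [Finset.mem_sdiff, Finset.mem_Ico, Finset.mem_filter, Finset.mem_range] at ht
          refine hT _ _ ?_
          by_contra hcon
          exact ht.2 ⟨by omega, ht.1⟩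
      · intro i _ hi
        refine Finset.sum_eq_zero (fun t _ => ?_)
        rw [if_neg]
        intro h
        exact hi h.1.symm
      · intro h
        exact absurd (Finset.mem_range.2 hj) h
    · rw [Finset.sum_eq_zero]
      · unfold S
        exact Finset.sum_eq_zero (fun t _ => hI _ _ (by omega))
      · intro i hi
        refine Finset.sum_eq_zero (fun t _ => ?_)
        rw [if_neg]
        intro h
        exact hj (h.1 ▸ Finset.mem_range.1 hi)
  rw [h1]
  refine (sq_sum_le_card_mul_sum_sq).trans (le_of_eq ?_)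
  rw [Finset.card_product, Finset.card_range, Finset.card_range]
  congr 1
  refine Finset.sum_congr rfl (fun p _ => ?_)
  split_ifs <;> simp

/-- functions on a finite rectangle with small values have small norm -/
theorem BB_small (I T : ℕ) (y : Fn) (hI : ∀ i t, I ≤ i → y i t = 0)
    (hT : ∀ i t, T ≤ t → y i t = 0) {θ : ℝ} (hθ : ∀ i t, |y i t| ≤ θ) :
    BB w1 y (((I * T : ℕ) : ℝ) ^ 2 * θ ^ 2) := by
  intro l hl
  have h1 : Q w1 l y ≤ ((I * T : ℕ) : ℝ) * ∑ p ∈ Finset.range I ×ˢ Finset.range T,
      cover l p.1 p.2 * (y p.1 p.2) ^ 2 := by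
    clear hl
    induction l with
    | nil => simp [Q, cover]
    | cons j l ih =>
      rw [Q_cons]
      have h2 := S_sq_le I T y hI hT j
      have h3 : ∑ p ∈ Finset.range I ×ˢ Finset.range T, cover (j :: l) p.1 p.2 * (y p.1 p.2) ^ 2
          = ∑ p ∈ Finset.range I ×ˢ Finset.range T,
              (if j.1 = p.1 ∧ j.2.1 ≤ p.2 ∧ p.2 < j.2.2 then (1 : ℝ) else 0) * (y p.1 p.2) ^ 2
            + ∑ p ∈ Finset.range I ×ˢ Finset.range T, cover l p.1 p.2 * (y p.1 p.2) ^ 2 := by
        rw [← Finset.sum_add_distrib]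
        refine Finset.sum_congr rfl (fun p _ => ?_)
        rw [cover_cons]; ring
      rw [h3, mul_add]
      simp only [w1, one_mul]
      linarith
  refine h1.trans ?_
  have h4 : ∑ p ∈ Finset.range I ×ˢ Finset.range T, cover l p.1 p.2 * (y p.1 p.2) ^ 2
      ≤ ∑ _p ∈ Finset.range I ×ˢ Finset.range T, θ ^ 2 := by
    refine Finset.sum_le_sum (fun p _ => ?_)
    have h5 := cover_le hl p.1 p.2
    have h6 : (y p.1 p.2) ^ 2 ≤ θ ^ 2 := by
      rw [← sq_abs (y p.1 p.2)]
      exact pow_le_pow_left₀ (abs_nonneg _) (hθ _ _) 2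
    nlinarith [sq_nonneg (y p.1 p.2)]
  rw [Finset.sum_const, Finset.card_product, Finset.card_range, Finset.card_range,
    nsmul_eq_mul] at h4
  have h7 := mul_le_mul_of_nonneg_left h4 (Nat.cast_nonneg (α := ℝ) (I * T))
  calc _ ≤ _ := h7
    _ = _ := by ring

/-- combination of a zero-sum function before the time `T` and a function after the time `T` -/
theorem BB_comb {e D : Fn} {T : ℕ} (he : ∀ i t, T ≤ t → e i t = 0)
    (hD : ∀ i t, t < T → D i t = 0) (h0 : ∀ i, S e (i, 0, T) = 0) {A B : ℝ}
    (hA : BB w1 e A) (hB : BB w2 D B) : BB w2 (e + D) (2 * A + B) := by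
  intro l hl
  let φ : Jmp → Jmp := fun j => (j.1, min j.2.1 T, min j.2.2 T)
  let ψ : Jmp → Jmp := fun j => if T ≤ j.2.1 then j else if T < j.2.2 then (j.1, 0, j.2.2)
    else (j.1, 0, 0)
  have h1 := hA (l.map φ) (by
    refine adm_map hl _ ?_ ?_
    · intro j k hj hk hjk hi
      have := hjk hi
      simp only [φ]
      omega
    · intro j hj
      simp only [φ]
      omega)
  have h2 := hB (l.map ψ) (by
    refine adm_map hl _ ?_ ?_
    · intro j k hj hk hjk hi
      have hi' : j.1 = k.1 := by
        simp only [ψ] at hi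
        split_ifs at hi <;> exact hi
      have := hjk hi'
      simp only [ψ]
      split_ifs <;> (try simp only) <;> omega
    · intro j hj
      simp only [ψ]
      split_ifs <;> (try simp only) <;> omega)
  have e1 : ∀ i a b, S e (i, a, b) = S e (i, min a T, min b T) := by
    intro i a b
    rw [← S_ltT]
    congr 1
    funext i t
    simp only [ltT]
    by_cases h : t < T
    · simp [h]
    · simp [h, he i t (by omega)]
  have e2 : ∀ i a b, a < T → S D (i, a, b) = S D (i, 0, b) := by
    intro i a b ha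
    have e3 : D = geT T D := by
      funext i t
      simp only [geT]
      by_cases h : T ≤ t
      · simp [h]
      · simp [h, hD i t (by omega)]
    rw [e3, S_geT, S_geT]
    congr 2
    rw [max_eq_right ha.le, max_eq_right (Nat.zero_le T)]
  have e4 : ∀ i a b, b ≤ T → S D (i, a, b) = 0 := by
    intro i a b hb
    unfold S
    refine Finset.sum_eq_zero (fun t ht => hD _ _ ?_)
    have := (Finset.mem_Ico.1 ht).2
    simp only at this
    omega
  have e5 : ∀ i a b, T ≤ a → S e (i, a, b) = 0 := by
    intro i a b ha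
    unfold S
    refine Finset.sum_eq_zero (fun t ht => he _ _ ?_)
    have := (Finset.mem_Ico.1 ht).1
    simp only at this
    omega
  have key : Q w2 l (e + D) ≤ 2 * Q w1 (l.map φ) e + Q w2 (l.map ψ) D := by
    clear h1 h2 hl
    induction l with
    | nil => simp [Q]
    | cons j l ih =>
      rw [List.map_cons, List.map_cons, Q_cons, Q_cons, Q_cons, S_add]
      obtain ⟨i, a, b⟩ := j
      have : w2 a * (S e (i, a, b) + S D (i, a, b)) ^ 2
          ≤ 2 * (w1 (φ (i, a, b)).2.1 * (S e (φ (i, a, b))) ^ 2)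
            + w2 (ψ (i, a, b)).2.1 * (S D (ψ (i, a, b))) ^ 2 := by
        have hφ : S e (φ (i, a, b)) = S e (i, a, b) := (e1 i a b).symm
        rw [hφ]
        simp only [w1, one_mul]
        by_cases hTa : T ≤ a
        · have hψ : ψ (i, a, b) = (i, a, b) := by simp [ψ, hTa]
          rw [hψ, e5 i a b hTa]
          simp
        · by_cases hTb : T < b
          · have hψ : ψ (i, a, b) = (i, 0, b) := by simp [ψ, hTa, hTb]
            rw [hψ, ← e2 i a b (by omega)]
            have hw : w2 (i, 0, b).2.1 = 2 := by simp [w2]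
            rw [hw]
            by_cases ha : a = 0
            · have h6 : S e (i, a, b) = 0 := by
                rw [ha, e1 i 0 b, min_eq_right hTb.le, min_eq_left (Nat.zero_le T)]
                exact h0 i
              rw [h6, ha]
              simp [w2]
            · have : w2 a = 1 := by simp [w2, ha]
              rw [this]
              nlinarith [sq_nonneg (S e (i, a, b) - S D (i, a, b))]
          · have hψ : ψ (i, a, b) = (i, 0, 0) := by simp [ψ, hTa, hTb]
            rw [hψ, e4 i a b (by omega), e4 i 0 0 (by omega)]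
            have : w2 a ≤ 2 := by unfold w2; split_ifs <;> norm_num
            nlinarith [sq_nonneg (S e (i, a, b))]
      simp only at this ⊢
      linarith
  linarith

end Pool.Agent.R302.HJ
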