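import Pool.Agent.R302.HJ.Defs

/-!
The `ell_2`-sum of James spaces as a Banach space: the closure of the finitely supported vectors in a space of
bounded families of vectors; the codimension of the space in its bidual is infinite.
-/

set_option autoImplicit false

noncomputable section

namespace Pool.Agent.R302.HJ

open Filter Topology

/-- coordinates of a finitely supported vector -/
def cv (v : (ℕ × ℕ) →₀ ℝ) : Fn := fun i t => v (i, t)

theorem cv_add (u v : (ℕ × ℕ) →₀ ℝ) : cv (u + v) = cv u + cv v := rfl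

theorem cv_smul (c : ℝ) (v : (ℕ × ℕ) →₀ ℝ) : cv (c • v) = c • cv v := rfl

theorem S_single (i t : ℕ) (c : ℝ) (j : Jmp) :
    S (cv (Finsupp.single (i, t) c)) j = if j.1 = i ∧ j.2.1 ≤ t ∧ t < j.2.2 then c else 0 := by
  unfold S cv
  simp only [Finsupp.single_apply, Prod.mk.injEq]
  by_cases hi : j.1 = i
  · have h1 : ∀ x : ℕ, (if i = j.1 ∧ t = x then c else 0) = if t = x then c else 0 := by
      intro x
      simp [hi]
    simp only [h1]
    rw [Finset.sum_ite_eq (Finset.Ico j.2.1 j.2.2) t (fun _ => c)]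
    simp [hi, Finset.mem_Ico]
  · have h1 : ∀ x : ℕ, (if i = j.1 ∧ t = x then c else 0) = 0 := by
      intro x
      rw [if_neg]
      rintro ⟨h, -⟩
      exact hi h.symm
    simp [h1, hi]

theorem Q_single_zero (i t : ℕ) (c : ℝ) (l : List Jmp)
    (h : ∀ j ∈ l, ¬ (j.1 = i ∧ j.2.1 ≤ t ∧ t < j.2.2)) : Q w1 l (cv (Finsupp.single (i, t) c)) = 0 := by
  induction l with
  | nil => simp [Q]
  | cons j l ih =>
    rw [Q_cons, ih (fun k hk => h k (List.mem_cons_of_mem _ hk)), S_single,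
      if_neg (h j (List.mem_cons_self ..))]
    simp

theorem Q_single_le (i t : ℕ) (c : ℝ) (l : List Jmp) (hl : Adm l) :
    Q w1 l (cv (Finsupp.single (i, t) c)) ≤ c ^ 2 := by
  induction l with
  | nil => simpa [Q] using sq_nonneg c
  | cons j l ih =>
    obtain ⟨h1, h2⟩ := hl
    rw [List.pairwise_cons] at h1
    rw [Q_cons, S_single]
    by_cases hj : j.1 = i ∧ j.2.1 ≤ t ∧ t < j.2.2
    · rw [if_pos hj, Q_single_zero i t c l]
      · simp [w1]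
      · rintro k hk ⟨h3, h4, h5⟩
        have h6 := h1.1 k hk (hj.1.trans h3.symm)
        omega
    · rw [if_neg hj]
      have := ih ⟨h1.2, fun k hk => h2 k (List.mem_cons_of_mem _ hk)⟩
      simpa using this

theorem BB_single (i t : ℕ) (c : ℝ) : BB w1 (cv (Finsupp.single (i, t) c)) (c ^ 2) :=
  fun l hl => Q_single_le i t c l hl

theorem exists_BB (v : (ℕ × ℕ) →₀ ℝ) : ∃ A, BB w1 (cv v) A := by
  induction v using Finsupp.induction_linear with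
  | zero =>
    refine ⟨0, fun l _ => ?_⟩
    have h : cv 0 = (0 : ℝ) • (cv 0) := by
      funext i t
      simp [cv]
    rw [h, Q_smul]
    simp
  | add u v hu hv =>
    obtain ⟨A, hA⟩ := hu
    obtain ⟨B, hB⟩ := hv
    rw [cv_add]
    exact ⟨_, hA.add w1_nonneg one_pos hB⟩
  | single p c =>
    obtain ⟨i, t⟩ := p
    exact ⟨_, BB_single i t c⟩

/-- admissible lists -/
abbrev Ix := {l : List Jmp // Adm l}

/-- the finite dimensional spaces -/
abbrev En (l : Ix) : Type := EuclideanSpace ℝ (Fin l.1.length)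

/-- the vector of the interval sums -/
def Tl (l : Ix) (v : (ℕ × ℕ) →₀ ℝ) : En l := WithLp.toLp 2 (fun k => S (cv v) l.1[k])

theorem Tl_norm (l : Ix) (v : (ℕ × ℕ) →₀ ℝ) : ‖Tl l v‖ ^ 2 = Q w1 l.1 (cv v) := by
  rw [EuclideanSpace.norm_sq_eq]
  unfold Q
  rw [← Fin.sum_univ_fun_getElem]
  apply Finset.sum_congr rfl
  intro k _
  unfold Tl w1
  simp

theorem Tl_add (l : Ix) (u v : (ℕ × ℕ) →₀ ℝ) : Tl l (u + v) = Tl l u + Tl l v := by
  ext k
  simp only [Tl, cv_add, S_add, PiLp.add_apply]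

theorem Tl_smul (l : Ix) (c : ℝ) (v : (ℕ × ℕ) →₀ ℝ) : Tl l (c • v) = c • Tl l v := by
  ext k
  simp only [Tl, cv_smul, S_smul, PiLp.smul_apply, smul_eq_mul]

theorem Tl_le {v : (ℕ × ℕ) →₀ ℝ} {A : ℝ} (h : BB w1 (cv v) A) (l : Ix) : ‖Tl l v‖ ≤ √A := by
  apply Real.le_sqrt_of_sq_le
  rw [Tl_norm]
  exact h l.1 l.2

/-- the embedding -/
def J0 : ((ℕ × ℕ) →₀ ℝ) →ₗ[ℝ] (lp En ⊤) where
  toFun v := ⟨fun l => Tl l v, by
    obtain ⟨A, hA⟩ := exists_BB v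
    apply memℓp_infty
    refine ⟨√A, ?_⟩
    rintro _ ⟨l, rfl⟩
    exact Tl_le hA l⟩
  map_add' u v := by
    apply Subtype.ext
    funext l
    exact Tl_add l u v
  map_smul' c v := by
    apply Subtype.ext
    funext l
    exact Tl_smul l c v

theorem J0_norm_le {v : (ℕ × ℕ) →₀ ℝ} {A : ℝ} (h : BB w1 (cv v) A) : ‖J0 v‖ ≤ √A :=
  lp.norm_le_of_forall_le (Real.sqrt_nonneg A) (fun l => Tl_le h l)

theorem J0_BB (v : (ℕ × ℕ) →₀ ℝ) : BB w1 (cv v) (‖J0 v‖ ^ 2) := by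
  intro l hl
  have h := lp.norm_apply_le_norm ENNReal.top_ne_zero (J0 v) ⟨l, hl⟩
  have h1 : (J0 v) ⟨l, hl⟩ = Tl ⟨l, hl⟩ v := rfl
  rw [h1] at h
  rw [← Tl_norm ⟨l, hl⟩ v]
  exact pow_le_pow_left₀ (norm_nonneg _) h 2

/-- the space -/
abbrev XX : Type := (LinearMap.range J0).topologicalClosure

/-- the map to the space -/
def JJ : ((ℕ × ℕ) →₀ ℝ) →ₗ[ℝ] XX :=
  J0.codRestrict _ (fun v => Submodule.le_topologicalClosure _ (LinearMap.mem_range_self J0 v))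

theorem JJ_norm (v : (ℕ × ℕ) →₀ ℝ) : ‖JJ v‖ = ‖J0 v‖ := rfl

theorem JJ_dense : DenseRange JJ := by
  intro x
  rw [Metric.mem_closure_iff]
  intro ε hε
  have hx : (x : lp En ⊤) ∈ closure ((LinearMap.range J0 : Submodule ℝ (lp En ⊤)) : Set (lp En ⊤)) := x.2
  rw [Metric.mem_closure_iff] at hx
  obtain ⟨b, hb, hd⟩ := hx ε hε
  obtain ⟨v, rfl⟩ := hb
  exact ⟨JJ v, ⟨v, rfl⟩, hd⟩

/-- ultrafilter limits of bounded sequences of functionals -/
theorem ulim_sp {Y : Type} [NormedAddCommGroup Y] [NormedSpace ℝ Y] (a : ℕ → (Y →L[ℝ] ℝ)) (ha : ∀ n, ‖a n‖ ≤ 1) :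
    ∃ F : Y →L[ℝ] ℝ, ‖F‖ ≤ 1 ∧ ∀ y, Tendsto (fun n => a n y) (hyperfilter ℕ : Filter ℕ) (𝓝 (F y)) := by
  have hc := WeakDual.isCompact_closedBall (𝕜 := ℝ) (E := Y) (0 : StrongDual ℝ Y) 1
  set u : Ultrafilter (WeakDual ℝ Y) := (hyperfilter ℕ).map (fun n => StrongDual.toWeakDual (a n)) with hu
  have hm : (u : Filter (WeakDual ℝ Y)) ≤ 𝓟 (WeakDual.toStrongDual ⁻¹' Metric.closedBall (0 : StrongDual ℝ Y) 1) := by
    rw [le_principal_iff, hu, Ultrafilter.coe_map, mem_map]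
    apply univ_mem'
    intro n
    show StrongDual.toWeakDual (a n) ∈ WeakDual.toStrongDual ⁻¹' Metric.closedBall (0 : StrongDual ℝ Y) 1
    rw [Set.mem_preimage, Metric.mem_closedBall, dist_zero_right]
    exact ha n
  obtain ⟨F, hF, hle⟩ := hc.ultrafilter_le_nhds u hm
  refine ⟨WeakDual.toStrongDual F, ?_, ?_⟩
  · rw [Set.mem_preimage, Metric.mem_closedBall, dist_zero_right] at hF
    exact hF
  · intro y
    have ht : Tendsto (fun n => StrongDual.toWeakDual (a n)) (hyperfilter ℕ : Filter ℕ) (𝓝 F) := by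
      rw [hu, Ultrafilter.coe_map] at hle
      exact hle
    have := ((WeakDual.eval_continuous y).tendsto F).comp ht
    exact this


theorem lim_eq {f : ℕ → ℝ} {x c : ℝ} (h : Tendsto f (hyperfilter ℕ : Filter ℕ) (𝓝 x))
    (hc : ∀ᶠ n in atTop, f n = c) : x = c := by
  have h1 : Tendsto f (hyperfilter ℕ : Filter ℕ) (𝓝 c) := by
    apply tendsto_const_nhds.congr'
    have h2 : ∀ᶠ n in (hyperfilter ℕ : Filter ℕ), f n = c := Nat.hyperfilter_le_atTop hc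
    exact h2.mono (fun n hn => hn.symm)
  exact tendsto_nhds_unique h h1

theorem adm_one (i T b : ℕ) : Adm [(i, T, T + b)] :=
  ⟨List.pairwise_singleton _ _, by simp⟩

/-- the coordinate functionals -/
def co (i T b : ℕ) : XX →L[ℝ] ℝ :=
  LinearMap.mkContinuous
    { toFun := fun x => ((x : lp En ⊤) ⟨[(i, T, T + b)], adm_one i T b⟩) ⟨0, by simp⟩
      map_add' := fun x y => rfl
      map_smul' := fun c x => rfl } 1 (by
    intro x
    rw [one_mul]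
    have h1 := lp.norm_apply_le_norm ENNReal.top_ne_zero (x : lp En ⊤) ⟨[(i, T, T + b)], adm_one i T b⟩
    have h2 := PiLp.norm_apply_le ((x : lp En ⊤) ⟨[(i, T, T + b)], adm_one i T b⟩) ⟨0, by simp⟩
    exact h2.trans h1)

theorem co_norm (i T b : ℕ) : ‖co i T b‖ ≤ 1 := LinearMap.mkContinuous_norm_le _ zero_le_one _

theorem co_JJ (i T b : ℕ) (v : (ℕ × ℕ) →₀ ℝ) : co i T b (JJ v) = S (cv v) (i, T, T + b) := rfl

theorem exists_F (i T : ℕ) : ∃ F : XX →L[ℝ] ℝ, ‖F‖ ≤ 1 ∧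
    (∀ j t : ℕ, F (JJ (Finsupp.single (j, t) 1)) = if i = j ∧ T ≤ t then 1 else 0) ∧
    (∀ v : (ℕ × ℕ) →₀ ℝ, (∀ t, T ≤ t → v (i, t) = 0) → F (JJ v) = 0) := by
  obtain ⟨F, hF, h⟩ := ulim_sp (fun b => co i T b) (fun b => co_norm i T b)
  refine ⟨F, hF, fun j t => ?_, fun v hv => ?_⟩
  · apply lim_eq (h _)
    filter_upwards [eventually_gt_atTop t] with b hb
    rw [co_JJ, S_single]
    have : (i = j ∧ T ≤ t ∧ t < T + b) ↔ (i = j ∧ T ≤ t) := by
      constructor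
      · rintro ⟨h1, h2, -⟩
        exact ⟨h1, h2⟩
      · rintro ⟨h1, h2⟩
        exact ⟨h1, h2, by omega⟩
    simp only [this]
  · apply lim_eq (h _)
    apply Eventually.of_forall
    intro b
    rw [co_JJ]
    unfold S cv
    apply Finset.sum_eq_zero
    intro t ht
    exact hv t (Finset.mem_Ico.1 ht).1

/-- the tail functionals -/
def FF (i T : ℕ) : XX →L[ℝ] ℝ := (exists_F i T).choose

theorem FF_norm (i T : ℕ) : ‖FF i T‖ ≤ 1 := (exists_F i T).choose_spec.1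

theorem FF_single (i T j t : ℕ) : FF i T (JJ (Finsupp.single (j, t) 1)) = if i = j ∧ T ≤ t then 1 else 0 :=
  (exists_F i T).choose_spec.2.1 j t

theorem FF_zero (i T : ℕ) (v : (ℕ × ℕ) →₀ ℝ) (hv : ∀ t, T ≤ t → v (i, t) = 0) : FF i T (JJ v) = 0 :=
  (exists_F i T).choose_spec.2.2 v hv

theorem apply_norm {Y : Type} [NormedAddCommGroup Y] [NormedSpace ℝ Y] (x : Y) (hx : ‖x‖ ≤ 1) :
    ‖ContinuousLinearMap.apply ℝ ℝ x‖ ≤ 1 := by
  apply ContinuousLinearMap.opNorm_le_bound _ zero_le_one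
  intro g
  rw [ContinuousLinearMap.apply_apply, one_mul]
  calc ‖g x‖ ≤ ‖g‖ * ‖x‖ := g.le_opNorm x
    _ ≤ ‖g‖ * 1 := by gcongr
    _ = ‖g‖ := mul_one _

section abstract_part

variable {X : Type} [NormedAddCommGroup X] [NormedSpace ℝ X]

theorem G_tendsto (J : ((ℕ × ℕ) →₀ ℝ) →ₗ[ℝ] X) (hJ : DenseRange J) (G : ℕ → X →L[ℝ] ℝ) (hG : ∀ T, ‖G T‖ ≤ 1) (i : ℕ)
    (hG0 : ∀ T (v : (ℕ × ℕ) →₀ ℝ), (∀ t, T ≤ t → v (i, t) = 0) → G T (J v) = 0) (x : X) :
    Tendsto (fun T => G T x) atTop (𝓝 0) := by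
  rw [Metric.tendsto_atTop]
  intro ε hε
  have hx := hJ x
  rw [Metric.mem_closure_iff] at hx
  obtain ⟨b, ⟨v, rfl⟩, hd⟩ := hx ε hε
  obtain ⟨N, hN⟩ : ∃ N : ℕ, ∀ t, N ≤ t → v (i, t) = 0 := by
    refine ⟨(v.support.image Prod.snd).sup id + 1, fun t ht => ?_⟩
    by_contra hne
    have h1 : t ∈ v.support.image Prod.snd :=
      Finset.mem_image.2 ⟨(i, t), Finsupp.mem_support_iff.2 hne, rfl⟩
    have h2 := Finset.le_sup (f := id) h1
    simp only [id] at h2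
    omega
  refine ⟨N, fun T hT => ?_⟩
  have h0 := hG0 T v (fun t ht => hN t (hT.trans ht))
  have h1 : G T x = G T (x - J v) := by
    rw [map_sub, h0, sub_zero]
  rw [dist_zero_right, h1]
  calc ‖G T (x - J v)‖ ≤ ‖G T‖ * ‖x - J v‖ := (G T).le_opNorm _
    _ ≤ 1 * ‖x - J v‖ := by gcongr; exact hG T
    _ < ε := by rw [one_mul, ← dist_eq_norm]; exact hd

theorem evlim {Y : Type} [NormedAddCommGroup Y] [NormedSpace ℝ Y] (e : ℕ → Y) (he : ∀ t, ‖e t‖ ≤ 1) :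
    ∃ z : (Y →L[ℝ] ℝ) →L[ℝ] ℝ, ∀ (g : Y →L[ℝ] ℝ) (c : ℝ), Tendsto (fun t => g (e t)) atTop (𝓝 c) → z g = c := by
  obtain ⟨z, -, h⟩ := ulim_sp (fun t => ContinuousLinearMap.apply ℝ ℝ (e t)) (fun t => apply_norm _ (he t))
  refine ⟨z, fun g c hc => ?_⟩
  have h1 := h g
  simp only [ContinuousLinearMap.apply_apply] at h1
  exact tendsto_nhds_unique h1 (hc.mono_left Nat.hyperfilter_le_atTop)

theorem codim_abs (z : ℕ → (X →L[ℝ] ℝ) →L[ℝ] ℝ) (L : ℕ → ((X →L[ℝ] ℝ) →L[ℝ] ℝ) →L[ℝ] ℝ)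
    (hLz : ∀ i j, L i (z j) = if i = j then 1 else 0)
    (hL2 : ∀ i, ∀ φ : (X →L[ℝ] ℝ) →L[ℝ] ℝ, ∀ x : X, (∀ g, φ g = g x) → L i φ = 0)
    (s : Finset ((X →L[ℝ] ℝ) →L[ℝ] ℝ)) : ∃ φ : (X →L[ℝ] ℝ) →L[ℝ] ℝ,
    φ ∉ Submodule.span ℝ ((↑s : Set ((X →L[ℝ] ℝ) →L[ℝ] ℝ)) ∪
      {ψ : (X →L[ℝ] ℝ) →L[ℝ] ℝ | ∃ x : X, ∀ g : X →L[ℝ] ℝ, ψ g = g x}) := by
  classical
  by_contra hcon
  push Not at hcon
  set n := s.card + 1 with hn
  let Λ : ((X →L[ℝ] ℝ) →L[ℝ] ℝ) →ₗ[ℝ] (Fin n → ℝ) := LinearMap.pi (fun i => (L i).toLinearMap)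
  have hΛz : ∀ j : Fin n, Λ (z j) = Pi.single j 1 := by
    intro j
    funext i
    show L i (z j) = _
    rw [hLz, Pi.single_apply]
    simp [Fin.ext_iff]
  have htop : (⊤ : Submodule ℝ (Fin n → ℝ)) ≤ Submodule.span ℝ (((s.image Λ : Finset (Fin n → ℝ))) : Set (Fin n → ℝ)) := by
    have h1 : ∀ φ : (X →L[ℝ] ℝ) →L[ℝ] ℝ,
        Λ φ ∈ Submodule.span ℝ (((s.image Λ : Finset (Fin n → ℝ))) : Set (Fin n → ℝ)) := by
      intro φ
      have h2 := hcon φ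
      induction h2 using Submodule.span_induction with
      | mem y hy =>
        rcases hy with hy | ⟨x, hx⟩
        · apply Submodule.subset_span
          rw [Finset.coe_image]
          exact ⟨y, hy, rfl⟩
        · have : Λ y = 0 := by
            funext i
            exact hL2 i y x hx
          rw [this]
          exact Submodule.zero_mem _
      | zero => rw [map_zero]; exact Submodule.zero_mem _
      | add y y' _ _ h3 h4 => rw [map_add]; exact Submodule.add_mem _ h3 h4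
      | smul c y _ h3 => rw [map_smul]; exact Submodule.smul_mem _ _ h3
    intro w _
    rw [pi_eq_sum_univ w]
    apply Submodule.sum_mem
    intro i _
    apply Submodule.smul_mem
    have h3 := h1 (z i)
    rw [hΛz] at h3
    have h4 : (fun j => if i = j then (1 : ℝ) else 0) = Pi.single i 1 := by
      funext j
      rw [Pi.single_apply]
      by_cases h : i = j
      · simp [h]
      · rw [if_neg h, if_neg (fun h' => h h'.symm)]
    rw [h4]
    exact h3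
  have h5 := Submodule.finrank_mono htop
  rw [finrank_top, Module.finrank_fin_fun] at h5
  have h6 := finrank_span_finset_le_card (R := ℝ) (s.image Λ)
  have h7 := Finset.card_image_le (s := s) (f := Λ)
  unfold Set.finrank at h6
  omega

theorem codim_gen (J : ((ℕ × ℕ) →₀ ℝ) →ₗ[ℝ] X) (hJ : DenseRange J) (hJ1 : ∀ i t, ‖J (Finsupp.single (i, t) 1)‖ ≤ 1)
    (G : ℕ → ℕ → X →L[ℝ] ℝ) (hG : ∀ i T, ‖G i T‖ ≤ 1)
    (hGe : ∀ i T j t, G i T (J (Finsupp.single (j, t) 1)) = if i = j ∧ T ≤ t then 1 else 0)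
    (hG0 : ∀ i T (v : (ℕ × ℕ) →₀ ℝ), (∀ t, T ≤ t → v (i, t) = 0) → G i T (J v) = 0)
    (s : Finset ((X →L[ℝ] ℝ) →L[ℝ] ℝ)) : ∃ φ : (X →L[ℝ] ℝ) →L[ℝ] ℝ,
    φ ∉ Submodule.span ℝ ((↑s : Set ((X →L[ℝ] ℝ) →L[ℝ] ℝ)) ∪
      {ψ : (X →L[ℝ] ℝ) →L[ℝ] ℝ | ∃ x : X, ∀ g : X →L[ℝ] ℝ, ψ g = g x}) := by
  choose z hz using fun i => evlim (fun t => J (Finsupp.single (i, t) 1)) (hJ1 i)
  choose L hL using fun i => evlim (Y := X →L[ℝ] ℝ) (G i) (hG i)
  apply codim_abs z L _ _ s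
  · intro i j
    apply hL
    have h1 : ∀ T, z j (G i T) = if i = j then 1 else 0 := by
      intro T
      apply hz
      apply tendsto_const_nhds.congr'
      filter_upwards [eventually_ge_atTop T] with t ht
      rw [hGe]
      simp [ht]
    simp only [h1]
    exact tendsto_const_nhds
  · intro i φ x hx
    apply hL
    simp only [hx]
    exact G_tendsto J hJ (G i) (hG i) i (hG0 i) x

end abstract_part

theorem JJ_single_norm (i t : ℕ) : ‖JJ (Finsupp.single (i, t) 1)‖ ≤ 1 := by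
  rw [JJ_norm]
  have := J0_norm_le (BB_single i t 1)
  simpa using this

theorem exists_space :
    ∃ (X : Type) (_ : NormedAddCommGroup X) (_ : NormedSpace ℝ X) (_ : CompleteSpace X)
      (J : ((ℕ × ℕ) →₀ ℝ) →ₗ[ℝ] X), DenseRange J ∧
      (∀ v A, BB w1 (cv v) A → ‖J v‖ ^ 2 ≤ A) ∧
      (∀ v, BB w1 (cv v) (‖J v‖ ^ 2)) ∧
      (∀ s : Finset ((X →L[ℝ] ℝ) →L[ℝ] ℝ), ∃ φ : (X →L[ℝ] ℝ) →L[ℝ] ℝ,
        φ ∉ Submodule.span ℝ ((↑s : Set ((X →L[ℝ] ℝ) →L[ℝ] ℝ)) ∪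
          {ψ : (X →L[ℝ] ℝ) →L[ℝ] ℝ | ∃ x : X, ∀ g : X →L[ℝ] ℝ, ψ g = g x})) := by
  refine ⟨XX, inferInstance, inferInstance, inferInstance, JJ, JJ_dense, ?_, ?_,
    codim_gen JJ JJ_dense JJ_single_norm FF FF_norm FF_single FF_zero⟩
  · intro v A h
    rw [JJ_norm]
    have h1 := J0_norm_le h
    have h2 := pow_le_pow_left₀ (norm_nonneg _) h1 2
    rwa [Real.sq_sqrt h.nonneg] at h2
  · intro v
    rw [JJ_norm]
    exact J0_BB v

end Pool.Agent.R302.HJ
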