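import Pool.Agent.R302.HJ.Res

set_option autoImplicit false

noncomputable section

namespace Pool.Agent.R302.HJ

open Filter Topology

/-- a nonprincipal ultrafilter -/
abbrev U : Ultrafilter ℕ := Filter.hyperfilter ℕ

/-- iterated quantifier: for `U`-almost all `n_1`, for `U`-almost all `n_2`, ... -/
def AU : ℕ → (List ℕ → Prop) → Prop
  | 0, P => P []
  | (m + 1), P => ∀ᶠ n in (U : Filter ℕ), AU m (fun l => P (n :: l))

theorem AU_mono : ∀ (m : ℕ) {P R : List ℕ → Prop}, (∀ l, P l → R l) → AU m P → AU m R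
  | 0, _, _, h, hP => h _ hP
  | (m + 1), _, _, h, hP => by
    filter_upwards [show ∀ᶠ n in (U : Filter ℕ), AU m _ from hP] with n hn
    exact AU_mono m (fun l => h _) hn

theorem AU_and : ∀ (m : ℕ) {P R : List ℕ → Prop}, AU m P → AU m R → AU m (fun l => P l ∧ R l)
  | 0, _, _, hP, hR => ⟨hP, hR⟩
  | (m + 1), _, _, hP, hR => by
    filter_upwards [show ∀ᶠ n in (U : Filter ℕ), AU m _ from hP,
      show ∀ᶠ n in (U : Filter ℕ), AU m _ from hR] with n h1 h2
    exact AU_and m h1 h2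

theorem AU_of_forall : ∀ (m : ℕ) {P : List ℕ → Prop}, (∀ l, P l) → AU m P
  | 0, _, h => h _
  | (m + 1), _, h => Eventually.of_forall (fun n => AU_of_forall m (fun l => h (n :: l)))

theorem AU_not : ∀ (m : ℕ) {P : List ℕ → Prop}, ¬ AU m P → AU m (fun l => ¬ P l)
  | 0, _, h => h
  | (m + 1), P, h => by
    have h1 : ∀ᶠ n in (U : Filter ℕ), ¬ AU m (fun l => P (n :: l)) :=
      Ultrafilter.eventually_not.2 h
    filter_upwards [h1] with n hn
    exact AU_not m hn

theorem AU_exists : ∀ (m : ℕ) {P : List ℕ → Prop}, AU m P → ∃ l, P l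
  | 0, _, h => ⟨_, h⟩
  | (m + 1), _, h => by
    obtain ⟨n, hn⟩ := (show ∀ᶠ n in (U : Filter ℕ), AU m _ from h).exists
    obtain ⟨l, hl⟩ := AU_exists m hn
    exact ⟨n :: l, hl⟩

/-- iterated quantifier for interlaced pairs -/
def AU2 : ℕ → (List ℕ → List ℕ → Prop) → Prop
  | 0, P => P [] []
  | (m + 1), P => ∀ᶠ n in (U : Filter ℕ), ∀ᶠ n' in (U : Filter ℕ),
      AU2 m (fun l l' => P (n :: l) (n' :: l'))

theorem AU2_mono : ∀ (m : ℕ) {P R : List ℕ → List ℕ → Prop},
    (∀ l l', P l l' → R l l') → AU2 m P → AU2 m R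
  | 0, _, _, h, hP => h _ _ hP
  | (m + 1), _, _, h, hP => by
    filter_upwards [show ∀ᶠ n in (U : Filter ℕ), ∀ᶠ n' in (U : Filter ℕ), AU2 m _ from hP]
      with n hn
    filter_upwards [hn] with n' hn'
    exact AU2_mono m (fun l l' => h _ _) hn'

theorem AU2_and : ∀ (m : ℕ) {P R : List ℕ → List ℕ → Prop}, AU2 m P → AU2 m R →
    AU2 m (fun l l' => P l l' ∧ R l l')
  | 0, _, _, hP, hR => ⟨hP, hR⟩
  | (m + 1), _, _, hP, hR => by
    filter_upwards [show ∀ᶠ n in (U : Filter ℕ), ∀ᶠ n' in (U : Filter ℕ), AU2 m _ from hP,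
      show ∀ᶠ n in (U : Filter ℕ), ∀ᶠ n' in (U : Filter ℕ), AU2 m _ from hR] with n h1 h2
    filter_upwards [h1, h2] with n' h3 h4
    exact AU2_and m h3 h4

theorem AU2_left : ∀ (m : ℕ) {P : List ℕ → Prop}, AU m P → AU2 m (fun l _ => P l)
  | 0, _, h => h
  | (m + 1), _, h => by
    filter_upwards [show ∀ᶠ n in (U : Filter ℕ), AU m _ from h] with n hn
    exact Eventually.of_forall (fun _ => AU2_left m hn)

theorem AU2_right : ∀ (m : ℕ) {P : List ℕ → Prop}, AU m P → AU2 m (fun _ l => P l)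
  | 0, _, h => h
  | (m + 1), _, h => by
    refine Eventually.of_forall (fun _ => ?_)
    filter_upwards [show ∀ᶠ n in (U : Filter ℕ), AU m _ from h] with n hn
    exact AU2_right m hn

/-- limit along the ultrafilter -/
def ulim (a : ℕ → ℝ) : ℝ := limUnder (U : Filter ℕ) a

theorem ulim_eq {a : ℕ → ℝ} {x : ℝ} (h : Tendsto a (U : Filter ℕ) (𝓝 x)) : ulim a = x :=
  h.limUnder_eq

theorem ulim_spec {a : ℕ → ℝ} {C : ℝ} (h : ∀ᶠ n in (U : Filter ℕ), |a n| ≤ C) :
    Tendsto a (U : Filter ℕ) (𝓝 (ulim a)) ∧ |ulim a| ≤ C := by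
  have h1 : ((U.map a : Ultrafilter ℝ) : Filter ℝ) ≤ 𝓟 (Set.Icc (-C) C) := by
    rw [Filter.le_principal_iff]
    show ∀ᶠ n in (U : Filter ℕ), a n ∈ Set.Icc (-C) C
    filter_upwards [h] with n hn
    exact abs_le.1 hn
  obtain ⟨x, hx, hx2⟩ := isCompact_Icc.ultrafilter_le_nhds _ h1
  have h2 : Tendsto a (U : Filter ℕ) (𝓝 x) := hx2
  rw [ulim_eq h2]
  exact ⟨h2, abs_le.2 hx⟩

theorem ulim_congr {a b : ℕ → ℝ} (h : ∀ᶠ n in (U : Filter ℕ), a n = b n) : ulim a = ulim b := by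
  unfold ulim limUnder
  rw [Filter.map_congr h]

theorem ulim_const (x : ℝ) : ulim (fun _ => x) = x := ulim_eq tendsto_const_nhds

theorem abs_le_of_BB {y : Fn} {A : ℝ} (h : BB w1 y A) (i t : ℕ) : |y i t| ≤ Real.sqrt A :=
  Real.abs_le_sqrt (h.coord i t)

theorem absS_le_of_BB {y : Fn} {A : ℝ} (h : BB w1 y A) (i a b : ℕ) (hab : a ≤ b) :
    |S y (i, a, b)| ≤ Real.sqrt A :=
  Real.abs_le_sqrt (h.jump i a b hab)

/-- coordinatewise ultrafilter limit -/
def flim (x : ℕ → Fn) : Fn := fun i t => ulim (fun n => x n i t)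

theorem coord_tendsto {x : ℕ → Fn} {A : ℝ} (h : ∀ᶠ n in (U : Filter ℕ), BB w1 (x n) A)
    (i t : ℕ) : Tendsto (fun n => x n i t) (U : Filter ℕ) (𝓝 (flim x i t)) :=
  (ulim_spec (C := Real.sqrt A) (by
    filter_upwards [h] with n hn
    exact abs_le_of_BB hn i t)).1

theorem Q_tendsto {x : ℕ → Fn} {y : Fn}
    (h : ∀ i t, Tendsto (fun n => x n i t) (U : Filter ℕ) (𝓝 (y i t))) (l : List Jmp) :
    Tendsto (fun n => Q w1 l (x n)) (U : Filter ℕ) (𝓝 (Q w1 l y)) := by
  induction l with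
  | nil => simp [Q]
  | cons j l ih =>
    simp only [Q_cons]
    refine Tendsto.add (Tendsto.const_mul _ (Tendsto.pow ?_ 2)) ih
    unfold S
    exact tendsto_finsetSum _ (fun t _ => h j.1 t)

theorem BB_flim {x : ℕ → Fn} {A : ℝ} (h : ∀ᶠ n in (U : Filter ℕ), BB w1 (x n) A) :
    BB w1 (flim x) A := by
  intro l hl
  refine le_of_tendsto (Q_tendsto (coord_tendsto h) l) ?_
  filter_upwards [h] with n hn
  exact hn l hl

/-- iterated coordinatewise limit -/
def WL : ℕ → (List ℕ → Fn) → Fn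
  | 0, g => g []
  | (r + 1), g => flim (fun n => WL r (fun l => g (n :: l)))

/-- boundedness along the tree -/
def BT (r : ℕ) (C : ℝ) (g : List ℕ → Fn) : Prop := AU r (fun l => BB w1 (g l) C)

theorem WL_BB : ∀ (r : ℕ) {g : List ℕ → Fn} {A : ℝ}, BT r A g → BB w1 (WL r g) A
  | 0, _, _, h => h
  | (r + 1), _, _, h => by
    refine BB_flim ?_
    filter_upwards [show ∀ᶠ n in (U : Filter ℕ), AU r _ from h] with n hn
    exact WL_BB r hn

theorem WL_sub : ∀ (r : ℕ) {g h : List ℕ → Fn} {A B : ℝ}, BT r A g → BT r B h →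
    WL r (fun l => g l - h l) = WL r g - WL r h
  | 0, _, _, _, _, _, _ => rfl
  | (r + 1), g, h, A, B, hg, hh => by
    funext i t
    have hg' : ∀ᶠ n in (U : Filter ℕ), BT r A (fun l => g (n :: l)) := hg
    have hh' : ∀ᶠ n in (U : Filter ℕ), BT r B (fun l => h (n :: l)) := hh
    have h1 : WL (r + 1) (fun l => g l - h l) i t
        = ulim (fun n => WL r (fun l => g (n :: l)) i t - WL r (fun l => h (n :: l)) i t) := by
      refine ulim_congr ?_
      filter_upwards [hg', hh'] with n h1 h2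
      rw [WL_sub r h1 h2]
      rfl
    rw [h1]
    refine ulim_eq ?_
    refine Tendsto.sub ?_ ?_
    · refine coord_tendsto (A := A) ?_ i t
      filter_upwards [hg'] with n h1
      exact WL_BB r h1
    · refine coord_tendsto (A := B) ?_ i t
      filter_upwards [hh'] with n h1
      exact WL_BB r h1

theorem WL_zero : ∀ (r : ℕ) {g : List ℕ → Fn} {i t : ℕ}, (∀ l, g l i t = 0) → WL r g i t = 0
  | 0, _, _, _, h => h _
  | (r + 1), g, i, t, h => by
    show ulim (fun n => WL r (fun l => g (n :: l)) i t) = 0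
    have : (fun n => WL r (fun l => g (n :: l)) i t) = fun _ => (0 : ℝ) := by
      funext n
      exact WL_zero r (fun l => h _)
    rw [this, ulim_const]

/-- Lipschitz condition along the tree (squares) -/
def LipT : ℕ → ℝ → (List ℕ → Fn) → Prop
  | 0, _, _ => True
  | (r + 1), A, g => (∀ᶠ n in (U : Filter ℕ), ∀ᶠ n' in (U : Filter ℕ),
      AU r (fun l => BB w1 (g (n :: l) - g (n' :: l)) A)) ∧
      ∀ᶠ n in (U : Filter ℕ), LipT r A (fun l => g (n :: l))

theorem WL_diff {r : ℕ} {g : List ℕ → Fn} {A C : ℝ} (hL : LipT (r + 1) A g)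
    (hB : BT (r + 1) C g) :
    ∀ᶠ n in (U : Filter ℕ), BB w1 (WL r (fun l => g (n :: l)) - WL (r + 1) g) A := by
  have hB' : ∀ᶠ n in (U : Filter ℕ), BT r C (fun l => g (n :: l)) := hB
  filter_upwards [hL.1, hB'] with n h1 h2
  have h3 : ∀ᶠ n' in (U : Filter ℕ),
      BB w1 (WL r (fun l => g (n :: l)) - WL r (fun l => g (n' :: l))) A := by
    filter_upwards [h1, hB'] with n' h4 h5
    rw [← WL_sub r h2 h5]
    exact WL_BB r h4
  have h4 := BB_flim h3
  convert h4 using 1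
  funext i t
  symm
  refine ulim_eq ?_
  refine Tendsto.sub tendsto_const_nhds ?_
  refine coord_tendsto (A := C) ?_ i t
  filter_upwards [hB'] with n' h5
  exact WL_BB r h5

theorem ev_all {I : ℕ} {p : ℕ → ℕ → Prop} (h : ∀ i < I, ∀ᶠ n in (U : Filter ℕ), p i n) :
    ∀ᶠ n in (U : Filter ℕ), ∀ i < I, p i n :=
  (Filter.eventually_all_finite (Set.finite_lt_nat I)).2 h

theorem WL_small : ∀ (r : ℕ) {g : List ℕ → Fn} {C : ℝ}, BT r C g → ∀ (I T : ℕ) {θ : ℝ}, 0 < θ →
    AU r (fun l => ∀ i < I, ∀ t < T, |g l i t - WL r g i t| ≤ θ)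
  | 0, g, C, _, I, T, θ, hθ => by
    intro i _ t _
    show |g [] i t - g [] i t| ≤ θ
    simp [hθ.le]
  | (r + 1), g, C, h, I, T, θ, hθ => by
    have h' : ∀ᶠ n in (U : Filter ℕ), BT r C (fun l => g (n :: l)) := h
    have h1 : ∀ᶠ n in (U : Filter ℕ), ∀ i < I, ∀ t < T,
        |WL r (fun l => g (n :: l)) i t - WL (r + 1) g i t| ≤ θ / 2 := by
      refine ev_all (fun i _ => ev_all (fun t _ => ?_))
      have h2 : Tendsto (fun n => WL r (fun l => g (n :: l)) i t) (U : Filter ℕ)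
          (𝓝 (WL (r + 1) g i t)) := by
        refine coord_tendsto (A := C) ?_ i t
        filter_upwards [h'] with n h5
        exact WL_BB r h5
      have h3 := (Metric.tendsto_nhds.1 h2) (θ / 2) (by positivity)
      filter_upwards [h3] with n hn
      rw [Real.dist_eq] at hn
      exact hn.le
    show ∀ᶠ n in (U : Filter ℕ), AU r _
    filter_upwards [h1, h'] with n h4 h5
    refine AU_mono r ?_ (WL_small r h5 I T (θ := θ / 2) (by positivity))
    intro l hl i hi t ht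
    have e1 := h4 i hi t ht
    have e2 := hl i hi t ht
    calc |g (n :: l) i t - WL (r + 1) g i t|
        = |(g (n :: l) i t - WL r (fun l => g (n :: l)) i t)
          + (WL r (fun l => g (n :: l)) i t - WL (r + 1) g i t)| := by congr 1; ring
      _ ≤ _ := abs_add_le _ _
      _ ≤ θ := by linarith

/-- total sum in the copy `i` -/
def tot (y : Fn) (i : ℕ) : ℝ := ulim (fun T => S y (i, 0, T))

theorem tot_tendsto {y : Fn} {A : ℝ} (h : BB w1 y A) (i : ℕ) :
    Tendsto (fun T => S y (i, 0, T)) (U : Filter ℕ) (𝓝 (tot y i)) ∧ |tot y i| ≤ Real.sqrt A :=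
  ulim_spec (Eventually.of_forall (fun T => absS_le_of_BB h i 0 T (Nat.zero_le T)))

theorem tot_sub {x y : Fn} {A B : ℝ} (hx : BB w1 x A) (hy : BB w1 y B) (i : ℕ) :
    tot (x - y) i = tot x i - tot y i := by
  refine ulim_eq ?_
  simp only [S_sub]
  exact (tot_tendsto hx i).1.sub (tot_tendsto hy i).1

theorem tot_near {y : Fn} {A ε : ℝ} (hy : BB w1 y A) {T : ℕ} (h : BB w1 (geT T y) ε) (i : ℕ) :
    |S y (i, 0, T) - tot y i| ≤ Real.sqrt ε := by
  have h1 : Tendsto (fun T' => |S y (i, 0, T) - S y (i, 0, T')|) (U : Filter ℕ)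
      (𝓝 |S y (i, 0, T) - tot y i|) := by
    exact (Tendsto.sub tendsto_const_nhds (tot_tendsto hy i).1).abs
  refine le_of_tendsto h1 ?_
  have h2 : ∀ᶠ T' in (U : Filter ℕ), T ≤ T' :=
    Nat.hyperfilter_le_atTop (Filter.eventually_ge_atTop T)
  filter_upwards [h2] with T' hT'
  have h3 : S y (i, 0, T) - S y (i, 0, T') = - S y (i, T, T') := by
    have := Finset.sum_Ico_consecutive (fun t => y i t) (Nat.zero_le T) hT'
    simp only [S]
    linarith
  have h4 : S (geT T y) (i, T, T') = S y (i, T, T') := by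
    rw [S_geT, max_self, max_eq_left hT']
  rw [h3, abs_neg, ← h4]
  exact absS_le_of_BB h i T T' hT'

/-- profiles -/
def pr : ℕ → (List ℕ → Fn) → ℕ → ℕ → ℝ
  | r, g, 0, i => tot (WL r g) i
  | 0, _, (_ + 1), _ => 0
  | (r + 1), g, (k + 1), i => ulim (fun n => pr r (fun l => g (n :: l)) k i)

theorem pr_zero (r : ℕ) (g : List ℕ → Fn) (i : ℕ) : pr r g 0 i = tot (WL r g) i := by
  cases r <;> rfl

theorem pr_bound : ∀ (k r : ℕ) {g : List ℕ → Fn} {C : ℝ}, BT r C g → ∀ i,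
    |pr r g k i| ≤ Real.sqrt C
  | 0, r, g, C, h, i => by
    rw [pr_zero]
    exact (tot_tendsto (WL_BB r h) i).2
  | (k + 1), 0, g, C, h, i => by
    show |(0 : ℝ)| ≤ _
    rw [abs_zero]
    exact Real.sqrt_nonneg _
  | (k + 1), (r + 1), g, C, h, i => by
    have h' : ∀ᶠ n in (U : Filter ℕ), BT r C (fun l => g (n :: l)) := h
    refine (ulim_spec (C := Real.sqrt C) ?_).2
    filter_upwards [h'] with n hn
    exact pr_bound k r hn i

theorem pr_tendsto {r : ℕ} {g : List ℕ → Fn} {C : ℝ} (h : BT (r + 1) C g) (k i : ℕ) :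
    Tendsto (fun n => pr r (fun l => g (n :: l)) k i) (U : Filter ℕ)
      (𝓝 (pr (r + 1) g (k + 1) i)) := by
  have h' : ∀ᶠ n in (U : Filter ℕ), BT r C (fun l => g (n :: l)) := h
  refine (ulim_spec (C := Real.sqrt C) ?_).1
  filter_upwards [h'] with n hn
  exact pr_bound k r hn i

end Pool.Agent.R302.HJ
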